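import Mathlib

set_option autoImplicit false

/-!
# Counting permutations by the pattern on a block of positions
-/

namespace Pool.Agent.W243.Peak

open Finset

/-- If `PA` depends on the relative order only and `R` is not changed by permuting the
positions in the block `ι`, the pattern on the block and `R` are independent. -/
theorem block {n p : ℕ} (ι : Fin p ↪ Fin n) (PA : (Fin p → ℕ) → Prop)
    (hPA : ∀ (τ : Equiv.Perm (Fin p)) (g : Fin p → ℕ), StrictMono g →
      (PA (fun i => g (τ i)) ↔ PA (fun i => (τ i : ℕ))))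
    (R : Equiv.Perm (Fin n) → Prop)
    (hR : ∀ (σ : Equiv.Perm (Fin p)) (π : Equiv.Perm (Fin n)),
      R (π * σ.viaEmbedding ι) ↔ R π) :
    p.factorial * Nat.card {π : Equiv.Perm (Fin n) // PA (fun i => (π (ι i) : ℕ)) ∧ R π} =
      Nat.card {τ : Equiv.Perm (Fin p) // PA (fun i => (τ i : ℕ))} *
        Nat.card {π : Equiv.Perm (Fin n) // R π} := by
  classical
  -- each π satisfying R
  have h1 : ∀ π : Equiv.Perm (Fin n),
      Nat.card {σ : Equiv.Perm (Fin p) // PA (fun i => (π (ι (σ i)) : ℕ))} =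
        Nat.card {τ : Equiv.Perm (Fin p) // PA (fun i => (τ i : ℕ))} := by
    intro π
    set u : Fin p → ℕ := fun i => (π (ι i) : ℕ) with hu
    have huinj : Function.Injective u := by
      intro i j hij
      exact ι.injective (π.injective (Fin.ext hij))
    set α := Tuple.sort u with hα
    have hg : StrictMono (u ∘ α) :=
      (Tuple.monotone_sort u).strictMono_of_injective (huinj.comp α.injective)
    refine Nat.card_congr (Equiv.subtypeEquiv (Equiv.mulLeft α⁻¹) ?_)
    intro σ
    have := hPA (α⁻¹ * σ) (u ∘ α) hg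
    have e : (fun i => (u ∘ α) ((α⁻¹ * σ) i)) = (fun i => (π (ι (σ i)) : ℕ)) := by
      funext i
      simp [hu, Equiv.Perm.mul_apply]
    rw [e] at this
    simpa using this
  have h2 : ∀ σ : Equiv.Perm (Fin p),
      Nat.card {π : Equiv.Perm (Fin n) // PA (fun i => (π (ι (σ i)) : ℕ)) ∧ R π} =
        Nat.card {π : Equiv.Perm (Fin n) // PA (fun i => (π (ι i) : ℕ)) ∧ R π} := by
    intro σ
    refine Nat.card_congr (Equiv.subtypeEquiv (Equiv.mulRight (σ.viaEmbedding ι)) ?_)
    intro π
    simp only [Equiv.coe_mulRight, hR, Equiv.Perm.mul_apply]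
    have e : (fun i => ((π ((σ.viaEmbedding ι) (ι i)) : Fin n) : ℕ)) =
        (fun i => (π (ι (σ i)) : ℕ)) := by
      funext i
      rw [Equiv.Perm.viaEmbedding_apply]
    rw [e]
  -- count the pairs in two ways
  have e1 : Nat.card {x : Equiv.Perm (Fin p) × Equiv.Perm (Fin n) //
      PA (fun i => (x.2 (ι (x.1 i)) : ℕ)) ∧ R x.2} =
      p.factorial *
        Nat.card {π : Equiv.Perm (Fin n) // PA (fun i => (π (ι i) : ℕ)) ∧ R π} := by
    rw [Nat.card_congr (Equiv.subtypeProdEquivSigmaSubtype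
      (fun (σ : Equiv.Perm (Fin p)) (π : Equiv.Perm (Fin n)) =>
        PA (fun i => (π (ι (σ i)) : ℕ)) ∧ R π))]
    rw [Nat.card_sigma]
    simp only [h2]
    rw [Finset.sum_const, Finset.card_univ, Fintype.card_perm, Fintype.card_fin, smul_eq_mul]
  have e2 : Nat.card {x : Equiv.Perm (Fin p) × Equiv.Perm (Fin n) //
      PA (fun i => (x.2 (ι (x.1 i)) : ℕ)) ∧ R x.2} =
      Nat.card {τ : Equiv.Perm (Fin p) // PA (fun i => (τ i : ℕ))} *
        Nat.card {π : Equiv.Perm (Fin n) // R π} := by
    have c1 : Nat.card {x : Equiv.Perm (Fin p) × Equiv.Perm (Fin n) //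
      PA (fun i => (x.2 (ι (x.1 i)) : ℕ)) ∧ R x.2} =
      Nat.card (Σ π : {π : Equiv.Perm (Fin n) // R π},
        {σ : Equiv.Perm (Fin p) // PA (fun i => (π.1 (ι (σ i)) : ℕ))}) := by
      refine Nat.card_congr ?_
      refine ⟨fun x => ⟨⟨x.1.2, x.2.2⟩, ⟨x.1.1, x.2.1⟩⟩, fun y => ⟨(y.2.1, y.1.1), y.2.2, y.1.2⟩,
        fun x => rfl, fun y => rfl⟩
    rw [c1, Nat.card_sigma]
    simp only [h1]
    rw [Finset.sum_const, Finset.card_univ, smul_eq_mul, Nat.card_eq_fintype_card
      (α := {π : Equiv.Perm (Fin n) // R π}), mul_comm]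
  rw [← e1, e2]

/-- permutations with a prescribed value at one position -/
theorem card_fix (n : ℕ) (i v : Fin (n + 1)) :
    Nat.card {π : Equiv.Perm (Fin (n + 1)) // π i = v} = n.factorial := by
  classical
  have h : ∀ w : Fin (n + 1), Nat.card {π : Equiv.Perm (Fin (n + 1)) // π i = w} =
      Nat.card {π : Equiv.Perm (Fin (n + 1)) // π i = v} := by
    intro w
    refine Nat.card_congr (Equiv.subtypeEquiv (Equiv.mulLeft (Equiv.swap w v)) ?_)
    intro π
    simp only [Equiv.coe_mulLeft, Equiv.Perm.mul_apply]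
    constructor
    · intro h
      rw [h, Equiv.swap_apply_left]
    · intro h
      have := congrArg (Equiv.swap w v) h
      rwa [Equiv.swap_apply_self, Equiv.swap_apply_right] at this
  have hs : Nat.card (Equiv.Perm (Fin (n + 1))) =
      ∑ w : Fin (n + 1), Nat.card {π : Equiv.Perm (Fin (n + 1)) // π i = w} := by
    rw [← Nat.card_sigma]
    refine Nat.card_congr (Equiv.sigmaFiberEquiv (fun π : Equiv.Perm (Fin (n + 1)) => π i)).symm
  simp only [h] at hs
  rw [Finset.sum_const, Finset.card_univ, Fintype.card_fin, smul_eq_mul, Nat.card_eq_fintype_card,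
    Fintype.card_perm, Fintype.card_fin, Nat.factorial_succ] at hs
  exact (Nat.eq_of_mul_eq_mul_left (Nat.succ_pos n) hs).symm

end Pool.Agent.W243.Peak
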