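import Mathlib
import Pool.Agent.W243.PeakBlock

set_option autoImplicit false

/-!
# Counting permutations by their peak set
-/

namespace Pool.Agent.W243.Peak

open Finset

/-- position `j` (counted from `0`) is a peak of the word `u` of length `n` -/
def PkF (n : ℕ) (u : Fin n → ℕ) (j : ℕ) : Prop :=
  ∃ (_ : 0 < j) (h : j + 1 < n), u ⟨j - 1, by omega⟩ < u ⟨j, by omega⟩ ∧
    u ⟨j + 1, h⟩ < u ⟨j, by omega⟩

/-- the peak set of the word `u` of length `n` is `S` (positions in `S` counted from `1`) -/
def PAS (n : ℕ) (S : Finset ℕ) (u : Fin n → ℕ) : Prop :=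
  ∀ j, j < n → (j + 1 ∈ S ↔ PkF n u j)

/-- number of permutations of `n` with peak set `S` -/
noncomputable def c (S : Finset ℕ) (n : ℕ) : ℕ :=
  Nat.card {π : Equiv.Perm (Fin n) // PAS n S (fun i => (π i : ℕ))}

theorem pas_inv {p : ℕ} (S : Finset ℕ) (τ : Equiv.Perm (Fin p)) (g : Fin p → ℕ)
    (hg : StrictMono g) :
    (PAS p S (fun i => g (τ i)) ↔ PAS p S (fun i => (τ i : ℕ))) := by
  unfold PAS PkF
  simp only [hg.lt_iff_lt, Fin.lt_def]

theorem pk_left {p q : ℕ} (u : Fin (p + q) → ℕ) (j : ℕ) :
    PkF p (fun i => u (Fin.castAdd q i)) j ↔ j + 1 < p ∧ PkF (p + q) u j := by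
  unfold PkF
  constructor
  · rintro ⟨h0, h, h1, h2⟩
    exact ⟨h, h0, by omega, h1, h2⟩
  · rintro ⟨h, h0, _, h1, h2⟩
    exact ⟨h0, h, h1, h2⟩

theorem pk_right {p q : ℕ} (u : Fin (p + q) → ℕ) (j : ℕ) :
    PkF q (fun i => u (Fin.natAdd p i)) j ↔ 0 < j ∧ PkF (p + q) u (p + j) := by
  unfold PkF
  constructor
  · rintro ⟨h0, h, h1, h2⟩
    have e : (Fin.natAdd p (⟨j - 1, by omega⟩ : Fin q)) = ⟨p + j - 1, by omega⟩ := by
      apply Fin.ext
      simp only [Fin.natAdd_mk]
      omega
    refine ⟨h0, by omega, by omega, ?_, ?_⟩
    · rw [← e]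
      exact h1
    · exact h2
  · rintro ⟨h0, _, h, h1, h2⟩
    have e : (Fin.natAdd p (⟨j - 1, by omega⟩ : Fin q)) = ⟨p + j - 1, by omega⟩ := by
      apply Fin.ext
      simp only [Fin.natAdd_mk]
      omega
    refine ⟨h0, by omega, ?_, ?_⟩
    · rw [← e] at h1
      exact h1
    · exact h2

/-- both blocks -/
theorem two_blocks (S : Finset ℕ) (p q : ℕ) :
    Nat.card {π : Equiv.Perm (Fin (p + q)) //
      PAS p S (fun i => (π (Fin.castAdd q i) : ℕ)) ∧
      PAS q ∅ (fun i => (π (Fin.natAdd p i) : ℕ))} =
      c S p * c ∅ q * (p + q).choose p := by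
  have h1 := block (Fin.natAddEmb p : Fin q ↪ Fin (p + q)) (PAS q ∅)
    (fun τ g hg => pas_inv ∅ τ g hg) (fun _ => True) (fun _ _ => Iff.rfl)
  have h2 := block (Fin.castAddEmb q : Fin p ↪ Fin (p + q)) (PAS p S)
    (fun τ g hg => pas_inv S τ g hg)
    (fun π => PAS q ∅ (fun i => (π (Fin.natAdd p i) : ℕ))) (by
      intro σ π
      have e : (fun i => (((π * σ.viaEmbedding (Fin.castAddEmb q : Fin p ↪ Fin (p + q)))
          (Fin.natAdd p i) : Fin (p + q)) : ℕ)) = (fun i => (π (Fin.natAdd p i) : ℕ)) := by
        funext i
        rw [Equiv.Perm.mul_apply, Equiv.Perm.viaEmbedding_apply_of_notMem]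
        rintro ⟨j, hj⟩
        have := congrArg Fin.val hj
        simp only [Fin.castAddEmb_apply, Fin.val_castAdd, Fin.val_natAdd] at this
        omega
      rw [e])
  simp only [Fin.castAddEmb_apply, Fin.natAddEmb_apply, and_true] at h1 h2
  have h3 : Nat.card {π : Equiv.Perm (Fin (p + q)) // True} = (p + q).factorial := by
    rw [Nat.card_eq_fintype_card, Fintype.card_subtype_true, Fintype.card_perm, Fintype.card_fin]
  rw [h3] at h1
  have h4 := Nat.add_choose_mul_factorial_mul_factorial p q
  rw [← Nat.choose_symm_add] at h4
  have hp := Nat.factorial_pos p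
  have hq := Nat.factorial_pos q
  have h5 : (p.factorial * q.factorial) * Nat.card {π : Equiv.Perm (Fin (p + q)) //
      PAS p S (fun i => (π (Fin.castAdd q i) : ℕ)) ∧
      PAS q ∅ (fun i => (π (Fin.natAdd p i) : ℕ))} =
      (p.factorial * q.factorial) * (c S p * c ∅ q * (p + q).choose p) := by
    calc _ = q.factorial * (p.factorial * Nat.card {π : Equiv.Perm (Fin (p + q)) //
      PAS p S (fun i => (π (Fin.castAdd q i) : ℕ)) ∧
      PAS q ∅ (fun i => (π (Fin.natAdd p i) : ℕ))}) := by ring
      _ = c S p * (q.factorial * Nat.card {π : Equiv.Perm (Fin (p + q)) //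
            PAS q ∅ (fun i => (π (Fin.natAdd p i) : ℕ))}) := by
          rw [h2]; unfold c; ring
      _ = c S p * (c ∅ q * (p + q).factorial) := by rw [h1]; rfl
      _ = _ := by rw [← h4]; ring
  exact Nat.eq_of_mul_eq_mul_left (Nat.mul_pos hp hq) h5

theorem pk_lt {n : ℕ} {u : Fin n → ℕ} {j : ℕ} (h : PkF n u j) : 0 < j ∧ j + 1 < n :=
  ⟨h.1, h.2.1⟩

/-- adjacent positions are not both peaks -/
theorem pk_adj {n : ℕ} {u : Fin n → ℕ} {j : ℕ} (h : PkF n u j) : ¬ PkF n u (j + 1) := by
  rintro ⟨_, h1, h2, h3⟩
  obtain ⟨_, h4, h5, h6⟩ := h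
  have : u ⟨j + 1 - 1, by omega⟩ = u ⟨j, by omega⟩ := by congr 1
  rw [this] at h2
  omega

theorem split_pred {S : Finset ℕ} {p q : ℕ} (hS : ∀ i ∈ S, 2 ≤ i ∧ i + 1 ≤ p) (hp : 1 ≤ p)
    (hq : 1 ≤ q) (u : Fin (p + q) → ℕ) :
    (PAS p S (fun i => u (Fin.castAdd q i)) ∧ PAS q ∅ (fun i => u (Fin.natAdd p i))) ↔
      ((PAS (p + q) (insert (p + 1) S) u ∨ PAS (p + q) (insert p S) u) ∨ PAS (p + q) S u) := by
  have hpS : p ∉ S := fun h => by have := hS p h; omega
  have hpS1 : p + 1 ∉ S := fun h => by have := hS (p + 1) h; omega
  have hbig : ∀ k, p ≤ k → k ∉ S := fun k hk h => by have := hS k h; omega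
  constructor
  · rintro ⟨h1, h2⟩
    have a1 : ∀ j, j + 1 < p → (j + 1 ∈ S ↔ PkF (p + q) u j) := by
      intro j hj
      have := h1 j (by omega)
      rw [pk_left] at this
      tauto
    have a2 : ∀ j, p < j → j < p + q → ¬ PkF (p + q) u j := by
      intro j hj hjn hk
      have := h2 (j - p) (by omega)
      rw [pk_right, show p + (j - p) = j by omega] at this
      simp only [Finset.notMem_empty, false_iff, not_and] at this
      exact this (by omega) hk
    by_cases b1 : PkF (p + q) u p
    · left; left
      intro j hj
      rw [Finset.mem_insert]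
      rcases lt_trichotomy j p with h | h | h
      · by_cases h' : j + 1 < p
        · rw [← a1 j h']
          constructor
          · rintro (h | h)
            · omega
            · exact h
          · exact fun h => Or.inr h
        · have hj1 : j + 1 = p := by omega
          constructor
          · rintro (h | h)
            · omega
            · exact absurd h (hj1 ▸ hpS)
          · intro hk
            have := pk_adj hk
            rw [hj1] at this
            exact absurd b1 this
      · subst h
        simp [b1]
      · constructor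
        · rintro (h | h')
          · omega
          · exact absurd h' (hbig _ (by omega))
        · exact fun hk => absurd hk (a2 j h hj)
    · by_cases b2 : PkF (p + q) u (p - 1)
      · left; right
        intro j hj
        rw [Finset.mem_insert]
        by_cases h' : j + 1 < p
        · rw [← a1 j h']
          constructor
          · rintro (h | h)
            · omega
            · exact h
          · exact fun h => Or.inr h
        · by_cases h2 : j + 1 = p
          · have : j = p - 1 := by omega
            subst this
            simp only [b2, iff_true]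
            left; omega
          · constructor
            · rintro (h | h')
              · omega
              · exact absurd h' (hbig _ (by omega))
            · intro hk
              by_cases h3 : j = p
              · subst h3; exact absurd hk b1
              · exact absurd hk (a2 j (by omega) hj)
      · right
        intro j hj
        by_cases h' : j + 1 < p
        · exact a1 j h'
        · constructor
          · intro h
            exact absurd h (hbig _ (by omega))
          · intro hk
            by_cases h2 : j + 1 = p
            · have : j = p - 1 := by omega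
              subst this
              exact absurd hk b2
            · by_cases h3 : j = p
              · subst h3; exact absurd hk b1
              · exact absurd hk (a2 j (by omega) hj)
  · intro H
    have key : ∀ j, j < p + q → j ≠ p → j + 1 ≠ p → (j + 1 ∈ S ↔ PkF (p + q) u j) := by
      intro j hj hjp hjp'
      rcases H with (H | H) | H
      · rw [← H j hj, Finset.mem_insert]
        constructor
        · exact fun h => Or.inr h
        · rintro (h | h)
          · omega
          · exact h
      · rw [← H j hj, Finset.mem_insert]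
        constructor
        · exact fun h => Or.inr h
        · rintro (h | h)
          · omega
          · exact h
      · exact H j hj
    constructor
    · intro j hj
      rw [pk_left]
      by_cases h' : j + 1 < p
      · rw [key j (by omega) (by omega) (by omega)]
        tauto
      · constructor
        · intro h
          exact absurd h (hbig _ (by omega))
        · rintro ⟨h, _⟩
          omega
    · intro j hj
      rw [pk_right]
      simp only [Finset.notMem_empty, false_iff, not_and]
      intro hj0 hk
      rw [← key (p + j) (by omega) (by omega) (by omega)] at hk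
      exact absurd hk (hbig _ (by omega))

theorem split_count {S : Finset ℕ} {p q : ℕ} (hS : ∀ i ∈ S, 2 ≤ i ∧ i + 1 ≤ p) (hp : 1 ≤ p)
    (hq : 1 ≤ q) :
    c (insert (p + 1) S) (p + q) + c (insert p S) (p + q) + c S (p + q) =
      c S p * c ∅ q * (p + q).choose p := by
  classical
  rw [← two_blocks]
  have hpS : p ∉ S := fun h => by have := hS p h; omega
  have hpS1 : p + 1 ∉ S := fun h => by have := hS (p + 1) h; omega
  unfold c
  simp only [Nat.card_eq_fintype_card, Fintype.card_subtype]
  rw [← Finset.card_union_of_disjoint, ← Finset.card_union_of_disjoint]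
  · congr 1
    ext π
    simp only [Finset.mem_union, Finset.mem_filter, Finset.mem_univ, true_and]
    exact (split_pred hS hp hq (fun i => (π i : ℕ))).symm
  · rw [Finset.disjoint_left]
    intro π
    simp only [Finset.mem_union, Finset.mem_filter, Finset.mem_univ, true_and]
    rintro (h | h) h'
    · have a := h p (by omega)
      rw [← h' p (by omega), Finset.mem_insert] at a
      exact hpS1 (a.1 (Or.inl rfl))
    · have a := h (p - 1) (by omega)
      rw [← h' (p - 1) (by omega), Finset.mem_insert, show p - 1 + 1 = p by omega] at a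
      exact hpS (a.1 (Or.inl rfl))
  · rw [Finset.disjoint_left]
    intro π
    simp only [Finset.mem_filter, Finset.mem_univ, true_and]
    intro h h'
    have a := h p (by omega)
    rw [← h' p (by omega), Finset.mem_insert, Finset.mem_insert] at a
    rcases a.1 (Or.inl rfl) with h1 | h1
    · omega
    · exact hpS1 h1

end Pool.Agent.W243.Peak
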