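import Mathlib
import Pool.Agent.W243.PeakCount

set_option autoImplicit false

/-!
# Peak-free permutations and some special counts
-/

namespace Pool.Agent.W243.Peak

open Finset

theorem via_cast_right {p q : ℕ} (σ : Equiv.Perm (Fin p)) (i : Fin q) :
    (σ.viaEmbedding (Fin.castAddEmb q : Fin p ↪ Fin (p + q))) (Fin.natAdd p i) =
      Fin.natAdd p i := by
  rw [Equiv.Perm.viaEmbedding_apply_of_notMem]
  rintro ⟨j, hj⟩
  have := congrArg Fin.val hj
  simp only [Fin.castAddEmb_apply, Fin.val_castAdd, Fin.val_natAdd] at this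
  omega

theorem via_nat_left {p q : ℕ} (σ : Equiv.Perm (Fin q)) (i : Fin p) :
    (σ.viaEmbedding (Fin.natAddEmb p : Fin q ↪ Fin (p + q))) (Fin.castAdd q i) =
      Fin.castAdd q i := by
  rw [Equiv.Perm.viaEmbedding_apply_of_notMem]
  rintro ⟨j, hj⟩
  have := congrArg Fin.val hj
  simp only [Fin.natAddEmb_apply, Fin.val_castAdd, Fin.val_natAdd] at this
  omega

/-- block of the first `p` positions, prescribed value at a later position -/
theorem first_fix (S : Finset ℕ) (p q : ℕ) (i : Fin (q + 1)) (v : Fin (p + (q + 1))) :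
    p.factorial * Nat.card {π : Equiv.Perm (Fin (p + (q + 1))) //
      PAS p S (fun i => (π (Fin.castAdd (q + 1) i) : ℕ)) ∧ π (Fin.natAdd p i) = v} =
      c S p * (p + q).factorial := by
  have h2 := block (Fin.castAddEmb (q + 1) : Fin p ↪ Fin (p + (q + 1))) (PAS p S)
    (fun τ g hg => pas_inv S τ g hg)
    (fun π => π (Fin.natAdd p i) = v) (by
      intro σ π
      rw [Equiv.Perm.mul_apply, via_cast_right])
  simp only [Fin.castAddEmb_apply] at h2
  rw [h2]
  unfold c
  congr 1
  exact card_fix (p + q) (Fin.natAdd p i) v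

/-- block of the last `q` positions, prescribed value at the first position -/
theorem last_fix (S : Finset ℕ) (q : ℕ) (v : Fin (1 + q)) :
    q.factorial * Nat.card {π : Equiv.Perm (Fin (1 + q)) //
      PAS q S (fun i => (π (Fin.natAdd 1 i) : ℕ)) ∧ π (Fin.castAdd q 0) = v} =
      c S q * q.factorial := by
  have h2 := block (Fin.natAddEmb 1 : Fin q ↪ Fin (1 + q)) (PAS q S)
    (fun τ g hg => pas_inv S τ g hg)
    (fun π => π (Fin.castAdd q 0) = v) (by
      intro σ π
      rw [Equiv.Perm.mul_apply, via_nat_left])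
  simp only [Fin.natAddEmb_apply] at h2
  rw [h2]
  unfold c
  congr 1
  have h : ∀ (n : ℕ) (h : n = q + 1) (i v : Fin n),
      Nat.card {π : Equiv.Perm (Fin n) // π i = v} = q.factorial := by
    intro n h i v
    subst h
    exact card_fix q i v
  exact h (1 + q) (by omega) _ _

/-- the maximal value of a peak-free word is at one of the ends -/
theorem peakfree_max {n : ℕ} {u : Fin n → ℕ} (h : PAS n ∅ u) {j : Fin n}
    (hj : ∀ i, i ≠ j → u i < u j) : j.val = 0 ∨ j.val + 1 = n := by
  by_contra hcon
  push Not at hcon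
  have h1 := h j.val j.isLt
  simp only [Finset.notMem_empty, false_iff] at h1
  apply h1
  refine ⟨by omega, by omega, ?_, ?_⟩
  · apply hj
    intro h
    have := congrArg Fin.val h
    simp only at this
    omega
  · apply hj
    intro h
    have := congrArg Fin.val h
    simp only at this
    omega

theorem e_one : c ∅ 1 = 1 := by
  classical
  unfold c
  rw [Nat.card_eq_fintype_card, Fintype.card_subtype]
  have : (univ.filter (fun π : Equiv.Perm (Fin 1) => PAS 1 ∅ (fun i => (π i : ℕ)))) = univ := by
    apply Finset.filter_true_of_mem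
    intro π _ j hj
    simp only [Finset.notMem_empty, false_iff]
    intro h
    have := pk_lt h
    omega
  rw [this, Finset.card_univ, Fintype.card_perm, Fintype.card_fin, Nat.factorial_one]

/-- the peak-free words with maximum at the end -/
theorem e_last (q : ℕ) (hq : 1 ≤ q) :
    Nat.card {π : Equiv.Perm (Fin (q + 1)) // PAS (q + 1) ∅ (fun i => (π i : ℕ)) ∧
      π (Fin.last q) = Fin.last q} = c ∅ q := by
  have h := first_fix ∅ q 0 0 (Fin.last q)
  have h' : Nat.card {π : Equiv.Perm (Fin (q + (0 + 1))) //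
      PAS q ∅ (fun i => (π (Fin.castAdd (0 + 1) i) : ℕ)) ∧ π (Fin.natAdd q 0) = Fin.last q} =
      c ∅ q := by
    have hq := Nat.factorial_pos q
    apply Nat.eq_of_mul_eq_mul_left hq
    rw [h, Nat.add_zero, mul_comm]
  rw [← h']
  refine Nat.card_congr (Equiv.subtypeEquiv (Equiv.refl _) ?_)
  intro π
  simp only [Equiv.refl_apply]
  constructor
  · rintro ⟨h1, h2⟩
    refine ⟨?_, h2⟩
    intro j hj
    simp only [Finset.notMem_empty, false_iff]
    intro hk
    have hk' := (pk_left (p := q) (q := 0 + 1) (fun i => ((π i : Fin (q + 1)) : ℕ)) j).1 hk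
    have := h1 j (by omega)
    simp only [Finset.notMem_empty, false_iff] at this
    exact this hk'.2
  · rintro ⟨h1, h2⟩
    refine ⟨?_, h2⟩
    intro j hj
    simp only [Finset.notMem_empty, false_iff]
    intro hk
    by_cases h3 : j + 1 < q
    · have := h1 j (by omega)
      simp only [Finset.notMem_empty, false_iff] at this
      exact this ((pk_left (p := q) (q := 0 + 1) (fun i => ((π i : Fin (q + 1)) : ℕ)) j).2 ⟨h3, hk⟩)
    · obtain ⟨h4, h5, h6, h7⟩ := hk
      have h8 : (⟨j + 1, h5⟩ : Fin (q + 1)) = Fin.last q := by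
        apply Fin.ext
        simp only [Fin.val_last]
        omega
      rw [h8] at h7
      have h9 : π (Fin.last q) = Fin.last q := h2
      simp only [h9, Fin.val_last] at h7
      have := (π ⟨j, by omega⟩).isLt
      omega

/-- the peak-free words with maximum at the beginning -/
theorem e_first (q : ℕ) (hq : 1 ≤ q) :
    Nat.card {π : Equiv.Perm (Fin (1 + q)) // PAS (1 + q) ∅ (fun i => (π i : ℕ)) ∧
      π (Fin.castAdd q 0) = Fin.natAdd 1 ⟨q - 1, by omega⟩} = c ∅ q := by
  have h := last_fix ∅ q (Fin.natAdd 1 ⟨q - 1, by omega⟩)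
  have h' : Nat.card {π : Equiv.Perm (Fin (1 + q)) //
      PAS q ∅ (fun i => (π (Fin.natAdd 1 i) : ℕ)) ∧
      π (Fin.castAdd q 0) = Fin.natAdd 1 ⟨q - 1, by omega⟩} = c ∅ q := by
    have hq := Nat.factorial_pos q
    apply Nat.eq_of_mul_eq_mul_left hq
    rw [h, mul_comm]
  rw [← h']
  refine Nat.card_congr (Equiv.subtypeEquiv (Equiv.refl _) ?_)
  intro π
  simp only [Equiv.refl_apply]
  constructor
  · rintro ⟨h1, h2⟩
    refine ⟨?_, h2⟩
    intro j hj
    simp only [Finset.notMem_empty, false_iff]
    intro hk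
    have hk' := (pk_right (p := 1) (q := q) (fun i => ((π i : Fin (1 + q)) : ℕ)) j).1 hk
    have := h1 (1 + j) (by omega)
    simp only [Finset.notMem_empty, false_iff] at this
    exact this hk'.2
  · rintro ⟨h1, h2⟩
    refine ⟨?_, h2⟩
    intro j hj
    simp only [Finset.notMem_empty, false_iff]
    intro hk
    by_cases h3 : 1 < j
    · have := h1 (j - 1) (by omega)
      simp only [Finset.notMem_empty, false_iff] at this
      apply this
      have h4 := (pk_right (p := 1) (q := q) (fun i => ((π i : Fin (1 + q)) : ℕ)) (j - 1)).2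
      rw [show 1 + (j - 1) = j by omega] at h4
      exact h4 ⟨by omega, hk⟩
    · obtain ⟨h4, h5, h6, h7⟩ := hk
      have h8 : (⟨j - 1, by omega⟩ : Fin (1 + q)) = Fin.castAdd q 0 := by
        apply Fin.ext
        simp only [Fin.val_castAdd, Fin.val_zero]
        omega
      rw [h8] at h6
      simp only [h2, Fin.val_natAdd] at h6
      have := (π ⟨j, by omega⟩).isLt
      omega

theorem e_succ (q : ℕ) (hq : 1 ≤ q) : c ∅ (q + 1) = 2 * c ∅ q := by
  classical
  have h1 := e_last q hq
  have h2 : Nat.card {π : Equiv.Perm (Fin (q + 1)) // PAS (q + 1) ∅ (fun i => (π i : ℕ)) ∧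
      π 0 = Fin.last q} = c ∅ q := by
    have h3 := e_first q hq
    have gen : ∀ (n : ℕ) (hn : n = q + 1) (a v : Fin n), a.val = 0 → v.val = q →
        Nat.card {π : Equiv.Perm (Fin n) // PAS n ∅ (fun i => (π i : ℕ)) ∧ π a = v} = c ∅ q →
        Nat.card {π : Equiv.Perm (Fin (q + 1)) // PAS (q + 1) ∅ (fun i => (π i : ℕ)) ∧
          π 0 = Fin.last q} = c ∅ q := by
      intro n hn a v ha hv h
      subst hn
      have ha' : a = 0 := Fin.ext ha
      have hv' : v = Fin.last q := Fin.ext hv
      rw [ha', hv'] at h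
      exact h
    refine gen (1 + q) (by omega) (Fin.castAdd q 0) (Fin.natAdd 1 ⟨q - 1, by omega⟩) rfl ?_ h3
    simp only [Fin.val_natAdd]
    omega
  rw [two_mul]
  nth_rewrite 1 [← h1]
  rw [← h2]
  unfold c
  simp only [Nat.card_eq_fintype_card, Fintype.card_subtype]
  rw [← Finset.card_union_of_disjoint]
  · congr 1
    ext π
    simp only [Finset.mem_union, Finset.mem_filter, Finset.mem_univ, true_and]
    constructor
    · intro h
      obtain ⟨j, hj⟩ := π.surjective (Fin.last q)
      have hmax : ∀ i, i ≠ j → ((π i : Fin (q + 1)) : ℕ) < (π j : ℕ) := by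
        intro i hi
        rw [hj, Fin.val_last]
        have h3 : π i ≠ Fin.last q := by
          intro h3
          exact hi (π.injective (h3.trans hj.symm))
        have h4 := (π i).isLt
        have h5 : (π i : ℕ) ≠ q := fun h5 => h3 (Fin.ext h5)
        omega
      rcases peakfree_max (u := fun i => ((π i : Fin (q + 1)) : ℕ)) h hmax with h5 | h5
      · right
        have : j = 0 := Fin.ext h5
        rw [this] at hj
        exact ⟨h, hj⟩
      · left
        have : j = Fin.last q := Fin.ext (by simp only [Fin.val_last]; omega)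
        rw [this] at hj
        exact ⟨h, hj⟩
    · rintro (h | h)
      · exact h.1
      · exact h.1
  · rw [Finset.disjoint_left]
    intro π
    simp only [Finset.mem_filter, Finset.mem_univ, true_and, not_and]
    rintro ⟨_, h3⟩ _ h4
    have := congrArg Fin.val (π.injective (h3.trans h4.symm))
    simp only [Fin.val_last, Fin.val_zero] at this
    omega

theorem e_eq (q : ℕ) : c ∅ (q + 1) = 2 ^ q := by
  induction q with
  | zero => simpa using e_one
  | succ q ih => rw [e_succ (q + 1) (by omega), ih, pow_succ, mul_comm]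

/-- no permutation of `n` has a peak at position `n` -/
theorem c_self {S : Finset ℕ} {n : ℕ} (hn : 1 ≤ n) (h : n ∈ S) : c S n = 0 := by
  unfold c
  rw [Nat.card_eq_zero]
  left
  constructor
  rintro ⟨π, hπ⟩
  have h1 := (hπ (n - 1) (by omega)).1 (by rwa [show n - 1 + 1 = n by omega])
  have := pk_lt h1
  omega

/-- no permutation has adjacent peaks -/
theorem c_adj {S : Finset ℕ} {a n : ℕ} (ha : 1 ≤ a) (hn : a + 1 ≤ n) (h : a ∈ S)
    (h' : a + 1 ∈ S) : c S n = 0 := by
  unfold c
  rw [Nat.card_eq_zero]
  left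
  constructor
  rintro ⟨π, hπ⟩
  have h1 := (hπ (a - 1) (by omega)).1 (by rwa [show a - 1 + 1 = a by omega])
  have h2 := (hπ a (by omega)).1 h'
  have := pk_adj h1
  rw [show a - 1 + 1 = a by omega] at this
  exact this h2

/-- no permutation has a peak at position `1` -/
theorem c_one {S : Finset ℕ} {n : ℕ} (hn : 1 ≤ n) (h : 1 ∈ S) : c S n = 0 := by
  unfold c
  rw [Nat.card_eq_zero]
  left
  constructor
  rintro ⟨π, hπ⟩
  have h1 := (hπ 0 (by omega)).1 h
  have := pk_lt h1
  omega

/-- lower bound: put the maximum after a permutation with peak set `S` -/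
theorem c_lower {S : Finset ℕ} {p : ℕ} (hS : ∀ i ∈ S, 2 ≤ i ∧ i + 1 ≤ p) (hp : 1 ≤ p) :
    (p + 1) * c S p ≤ c (insert (p + 1) S) (p + 2) := by
  classical
  have h1 := first_fix S p 1 0 (Fin.last (p + 1))
  have h2 : Nat.card {π : Equiv.Perm (Fin (p + (1 + 1))) //
      PAS p S (fun i => (π (Fin.castAdd (1 + 1) i) : ℕ)) ∧ π (Fin.natAdd p 0) = Fin.last (p + 1)} =
      (p + 1) * c S p := by
    have hq := Nat.factorial_pos p
    apply Nat.eq_of_mul_eq_mul_left hq
    rw [h1, Nat.factorial_succ]
    ring
  rw [← h2]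
  unfold c
  have hbig : ∀ k, p ≤ k → k ∉ S := fun k hk h => by have := hS k h; omega
  refine Nat.card_le_card_of_injective
    (fun x : {π : Equiv.Perm (Fin (p + (1 + 1))) //
      PAS p S (fun i => (π (Fin.castAdd (1 + 1) i) : ℕ)) ∧ π (Fin.natAdd p 0) = Fin.last (p + 1)} =>
      (⟨x.1, ?_⟩ : {π : Equiv.Perm (Fin (p + 2)) //
        PAS (p + 2) (insert (p + 1) S) (fun i => (π i : ℕ))})) ?_
  · obtain ⟨π, h3, h4⟩ := x
    have h4' : π ⟨p, by omega⟩ = Fin.last (p + 1) := by
      have : (⟨p, by omega⟩ : Fin (p + 2)) = Fin.natAdd p 0 := Fin.ext rfl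
      rw [this]
      exact h4
    have hlt : ∀ i : Fin (p + 2), i.val ≠ p → ((π i : Fin (p + 2)) : ℕ) < p + 1 := by
      intro i hi
      have h5 := (π i).isLt
      have h6 : π i ≠ Fin.last (p + 1) := by
        intro h6
        have := congrArg Fin.val (π.injective (h6.trans h4'.symm))
        exact hi this
      have h7 : ((π i : Fin (p + 2)) : ℕ) ≠ p + 1 := fun h7 => h6 (Fin.ext h7)
      omega
    intro j hj
    show (j + 1 ∈ insert (p + 1) S ↔ PkF (p + 2) (fun i => ((π i : Fin (p + 2)) : ℕ)) j)
    rw [Finset.mem_insert]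
    rcases lt_trichotomy j p with h | h | h
    · by_cases h' : j + 1 < p
      · have a := h3 j (by omega)
        have b := pk_left (p := p) (q := 1 + 1) (fun i => ((π i : Fin (p + 2)) : ℕ)) j
        constructor
        · rintro (h5 | h5)
          · omega
          · exact (b.1 (a.1 h5)).2
        · intro h5
          right
          exact a.2 (b.2 ⟨h', h5⟩)
      · constructor
        · rintro (h5 | h5)
          · omega
          · exact absurd h5 (hbig _ (by omega))
        · rintro ⟨h5, h6, h7, h8⟩
          exfalso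
          have h9 : (⟨j + 1, h6⟩ : Fin (p + 2)) = ⟨p, by omega⟩ := Fin.ext (by simp only; omega)
          rw [h9] at h8
          simp only [h4', Fin.val_last] at h8
          have := (π ⟨j, by omega⟩).isLt
          omega
    · subst h
      simp only [true_or, true_iff]
      refine ⟨by omega, by omega, ?_, ?_⟩
      · simp only [h4', Fin.val_last]
        apply hlt
        simp only
        omega
      · simp only [h4', Fin.val_last]
        apply hlt
        simp only
        omega
    · constructor
      · rintro (h5 | h5)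
        · omega
        · exact absurd h5 (hbig _ (by omega))
      · intro h5
        have := pk_lt h5
        omega
  · intro x y hxy
    have := congrArg Subtype.val hxy
    exact Subtype.ext this

/-- the recursion for the counts -/
theorem c_rec {S : Finset ℕ} {p n : ℕ} (hS : ∀ i ∈ S, 2 ≤ i ∧ i + 1 ≤ p) (hp : 1 ≤ p)
    (hn : p + 1 ≤ n) :
    c (insert (p + 1) S) n + c (insert p S) n + c S n =
      c S p * 2 ^ (n - p - 1) * n.choose p := by
  obtain ⟨q, rfl⟩ : ∃ q, n = p + (q + 1) := ⟨n - p - 1, by omega⟩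
  rw [split_count hS hp (by omega), e_eq, show p + (q + 1) - p - 1 = q by omega]

end Pool.Agent.W243.Peak
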