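import Mathlib

set_option autoImplicit false

/-!
# The cone generated by products of `1 / (x - i)`
-/

namespace Pool.Agent.W243.Peak

open Finset

/-- non-negative combinations of products of the functions `1/(x-i)`, `i ≤ a` (the complex
function together with its restriction to the reals) -/
inductive Cone (a : ℕ) : (ℂ → ℂ) → (ℝ → ℝ) → Prop
  | inv (i : ℕ) (h : i ≤ a) : Cone a (fun x => (x - (i : ℂ))⁻¹) (fun x => (x - (i : ℝ))⁻¹)
  | add {F G : ℂ → ℂ} {Fr Gr : ℝ → ℝ} : Cone a F Fr → Cone a G Gr →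
      Cone a (fun x => F x + G x) (fun x => Fr x + Gr x)
  | mul {F G : ℂ → ℂ} {Fr Gr : ℝ → ℝ} : Cone a F Fr → Cone a G Gr →
      Cone a (fun x => F x * G x) (fun x => Fr x * Gr x)
  | smul {F : ℂ → ℂ} {Fr : ℝ → ℝ} (r : ℝ) (hr : 0 ≤ r) : Cone a F Fr →
      Cone a (fun x => (r : ℂ) * F x) (fun x => r * Fr x)

theorem Cone.mono {a b : ℕ} {F : ℂ → ℂ} {Fr : ℝ → ℝ} (h : Cone a F Fr) (hab : a ≤ b) :
    Cone b F Fr := by
  induction h with
  | inv i hi => exact Cone.inv i (hi.trans hab)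
  | add _ _ ih1 ih2 => exact Cone.add ih1 ih2
  | mul _ _ ih1 ih2 => exact Cone.mul ih1 ih2
  | smul r hr _ ih => exact Cone.smul r hr ih

theorem Cone.real {a : ℕ} {F : ℂ → ℂ} {Fr : ℝ → ℝ} (h : Cone a F Fr) (r : ℝ) :
    F (r : ℂ) = (Fr r : ℂ) := by
  induction h with
  | inv i hi => push_cast; rfl
  | add _ _ ih1 ih2 => push_cast; rw [ih1, ih2]
  | mul _ _ ih1 ih2 => push_cast; rw [ih1, ih2]
  | smul c hc _ ih => push_cast; rw [ih]

theorem Cone.nonneg {a : ℕ} {F : ℂ → ℂ} {Fr : ℝ → ℝ} (h : Cone a F Fr) {r : ℝ} (hr : (a : ℝ) < r) :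
    0 ≤ Fr r := by
  induction h with
  | inv i hi =>
    have : (i : ℝ) ≤ a := by exact_mod_cast hi
    exact inv_nonneg.2 (by linarith)
  | add _ _ ih1 ih2 => exact add_nonneg ih1 ih2
  | mul _ _ ih1 ih2 => exact mul_nonneg ih1 ih2
  | smul c hc _ ih => exact mul_nonneg hc ih

theorem Cone.norm_le {a : ℕ} {F : ℂ → ℂ} {Fr : ℝ → ℝ} (h : Cone a F Fr) {x : ℂ}
    (hx : (a : ℝ) < ‖x‖) : ‖F x‖ ≤ Fr ‖x‖ := by
  induction h with
  | inv i hi =>
    have h1 : (i : ℝ) ≤ a := by exact_mod_cast hi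
    have h2 : ‖x‖ - i ≤ ‖x - (i : ℂ)‖ := by
      have := norm_sub_norm_le x (i : ℂ)
      rwa [Complex.norm_natCast] at this
    rw [norm_inv]
    exact inv_anti₀ (by linarith) h2
  | add _ _ ih1 ih2 => exact (norm_add_le _ _).trans (add_le_add ih1 ih2)
  | mul h1 h2 ih1 ih2 =>
    rw [norm_mul]
    exact mul_le_mul ih1 ih2 (norm_nonneg _) (h1.nonneg hx)
  | smul c hc _ ih =>
    rw [norm_mul, Complex.norm_real, Real.norm_of_nonneg hc]
    exact mul_le_mul_of_nonneg_left ih hc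

theorem Cone.decay {a : ℕ} {F : ℂ → ℂ} {Fr : ℝ → ℝ} (h : Cone a F Fr) {s r : ℝ}
    (hs : (a : ℝ) < s) (hr : s ≤ r) : r * Fr r ≤ s * Fr s := by
  induction h with
  | inv i hi =>
    have h1 : (i : ℝ) ≤ a := by exact_mod_cast hi
    have h0 : (0 : ℝ) ≤ i := Nat.cast_nonneg i
    have h2 : 0 < s - i := by linarith
    have h3 : 0 < r - i := by linarith
    show r * (r - (i : ℝ))⁻¹ ≤ s * (s - (i : ℝ))⁻¹
    rw [← div_eq_mul_inv, ← div_eq_mul_inv, div_le_div_iff₀ h3 h2]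
    nlinarith [mul_le_mul_of_nonneg_left hr h0]
  | add _ _ ih1 ih2 =>
    have := ih1
    have := ih2
    simp only
    nlinarith
  | @mul F' G' Fr' Gr' h1 h2 ih1 ih2 =>
    have ha : (0 : ℝ) ≤ a := Nat.cast_nonneg a
    have hs0 : 0 < s := by linarith
    have e1 := ih1
    have e2 := ih2
    have n1 := h1.nonneg (r := r) (by linarith)
    have n2 := h2.nonneg (r := r) (by linarith)
    have n3 := h1.nonneg (r := s) (by linarith)
    have n4 := h2.nonneg (r := s) (by linarith)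
    have e3 : s * Gr' r ≤ s * Gr' s :=
      (mul_le_mul_of_nonneg_right hr n2).trans e2
    have e4 : Gr' r ≤ Gr' s := le_of_mul_le_mul_left e3 hs0
    calc r * (Fr' r * Gr' r) = (r * Fr' r) * Gr' r := by ring
      _ ≤ (s * Fr' s) * Gr' s := mul_le_mul e1 e4 n2 (by positivity)
      _ = _ := by ring
  | smul c hc _ ih =>
    have := ih
    simp only
    nlinarith [mul_le_mul_of_nonneg_left this hc]

theorem Cone.anti {a : ℕ} {F : ℂ → ℂ} {Fr : ℝ → ℝ} (h : Cone a F Fr) {s r : ℝ}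
    (hs : (a : ℝ) < s) (hr : s ≤ r) : Fr r ≤ Fr s := by
  have h1 := h.decay hs hr
  have ha : (0 : ℝ) ≤ a := Nat.cast_nonneg a
  have hs0 : 0 < s := by linarith
  have n := h.nonneg (r := r) (by linarith)
  have : s * Fr r ≤ s * Fr s := (mul_le_mul_of_nonneg_right hr n).trans h1
  exact le_of_mul_le_mul_left this hs0

/-- divided differences stay in the cone -/
theorem Cone.dd {a : ℕ} {F : ℂ → ℂ} {Fr : ℝ → ℝ} (h : Cone a F Fr) {b : ℝ} (hb : (a : ℝ) < b) :
    ∃ (G : ℂ → ℂ) (Gr : ℝ → ℝ), Cone a G Gr ∧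
      ∀ x : ℂ, (a : ℝ) < ‖x‖ → (Fr b : ℂ) - F x = (x - b) * G x := by
  induction h with
  | inv i hi =>
    have h1 : (i : ℝ) ≤ a := by exact_mod_cast hi
    refine ⟨_, _, Cone.smul ((b - i)⁻¹) (inv_nonneg.2 (by linarith)) (Cone.inv i hi), ?_⟩
    intro x hx
    have h2 : x - (i : ℂ) ≠ 0 := by
      intro h
      rw [sub_eq_zero] at h
      rw [h, Complex.norm_natCast] at hx
      linarith
    have h3 : (b : ℂ) - (i : ℂ) ≠ 0 := by
      intro h
      have : b - i = 0 := by exact_mod_cast h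
      linarith
    push_cast
    field_simp
    ring
  | add _ _ ih1 ih2 =>
    obtain ⟨G1, Gr1, c1, e1⟩ := ih1
    obtain ⟨G2, Gr2, c2, e2⟩ := ih2
    refine ⟨_, _, Cone.add c1 c2, ?_⟩
    intro x hx
    push_cast
    linear_combination e1 x hx + e2 x hx
  | @mul F' G' Fr' Gr' h1 h2 ih1 ih2 =>
    obtain ⟨G1, Gr1, c1, e1⟩ := ih1
    obtain ⟨G2, Gr2, c2, e2⟩ := ih2
    refine ⟨_, _, Cone.add (Cone.smul (Fr' b) (h1.nonneg hb) c2) (Cone.mul c1 h2), ?_⟩
    intro x hx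
    push_cast
    linear_combination (Fr' b : ℂ) * e2 x hx + G' x * e1 x hx
  | smul c hc _ ih =>
    obtain ⟨G, Gr, c1, e1⟩ := ih
    refine ⟨_, _, Cone.smul c hc c1, ?_⟩
    intro x hx
    push_cast
    linear_combination (c : ℂ) * e1 x hx

end Pool.Agent.W243.Peak
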