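import Mathlib
import Pool.Agent.W243.PeakCone

set_option autoImplicit false

/-!
# Binomial polynomials and the sequence of polynomials obtained by adding one element
-/

namespace Pool.Agent.W243.Peak

open Finset Polynomial

/-- the binomial coefficient `x` over `k` -/
noncomputable def bn (k : ℕ) (x : ℂ) : ℂ := ∏ l ∈ range k, ((x - l) / (l + 1))

/-- the rising version -/
noncomputable def B (k : ℕ) (w : ℂ) : ℂ := ∏ l ∈ range k, ((w + l) / (l + 1))

/-- the binomial polynomial -/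
noncomputable def bnP (k : ℕ) : Polynomial ℝ :=
  ∏ l ∈ range k, (C (((l : ℝ) + 1)⁻¹) * (X - C (l : ℝ)))

theorem bn_succ (k : ℕ) (x : ℂ) : bn (k + 1) x = bn k x * ((x - k) / (k + 1)) := by
  unfold bn
  rw [prod_range_succ]

theorem B_succ (k : ℕ) (w : ℂ) : B (k + 1) w = B k w * ((w + k) / (k + 1)) := by
  unfold B
  rw [prod_range_succ]

theorem B_zero (w : ℂ) : B 0 w = 1 := by
  unfold B
  simp

theorem bn_neg (k : ℕ) (w : ℂ) : bn k (-w) = (-1) ^ k * B k w := by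
  induction k with
  | zero => simp [bn, B]
  | succ k ih =>
    rw [bn_succ, B_succ, ih, pow_succ]
    ring

theorem aeval_bnP (k : ℕ) (x : ℂ) : aeval x (bnP k) = bn k x := by
  induction k with
  | zero => simp [bn, bnP]
  | succ k ih =>
    rw [bn_succ, ← ih]
    unfold bnP
    rw [prod_range_succ, map_mul, map_mul, aeval_C, map_sub, aeval_X, aeval_C]
    simp only [Complex.coe_algebraMap]
    push_cast
    ring

theorem eval_bnP (k n : ℕ) : (bnP k).eval (n : ℝ) = (n.choose k : ℝ) := by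
  induction k with
  | zero => simp [bnP]
  | succ k ih =>
    have h1 : (bnP (k + 1)).eval (n : ℝ) = (bnP k).eval (n : ℝ) * (((k : ℝ) + 1)⁻¹ * (n - k)) := by
      unfold bnP
      rw [prod_range_succ, eval_mul, eval_mul, eval_C, eval_sub, eval_X, eval_C]
    rw [h1, ih]
    have h2 : (n.choose (k + 1) : ℝ) * (k + 1) = n.choose k * (n - k) := by
      rcases le_or_gt k n with h | h
      · have := Nat.choose_succ_right_eq n k
        have h3 : ((n.choose (k + 1) * (k + 1) : ℕ) : ℝ) = ((n.choose k * (n - k) : ℕ) : ℝ) := by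
          rw [this]
        push_cast [Nat.cast_sub h] at h3
        exact h3
      · rw [Nat.choose_eq_zero_of_lt h, Nat.choose_eq_zero_of_lt (by omega : n < k + 1)]
        simp
    have h4 : (k : ℝ) + 1 ≠ 0 := by positivity
    field_simp
    linarith

theorem aeval_real (f : Polynomial ℝ) (r : ℝ) : aeval (r : ℂ) f = ((f.eval r : ℝ) : ℂ) := by
  have := aeval_algebraMap_apply ℂ r f
  simpa [Complex.coe_algebraMap, coe_aeval_eq_eval] using this

theorem aeval_nat (f : Polynomial ℝ) (n : ℕ) : aeval (n : ℂ) f = ((f.eval (n : ℝ) : ℝ) : ℂ) := by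
  have := aeval_real f (n : ℝ)
  simpa using this

theorem bn_nat (k n : ℕ) : bn k (n : ℂ) = (n.choose k : ℂ) := by
  rw [← aeval_bnP, aeval_nat, eval_bnP]
  simp

theorem bn_ne_zero (k : ℕ) {x : ℂ} (hx : ((k : ℝ) - 1) < ‖x‖) : bn k x ≠ 0 := by
  unfold bn
  rw [Finset.prod_ne_zero_iff]
  intro l hl
  rw [Finset.mem_range] at hl
  have h1 : (l : ℝ) + 1 ≤ k := by exact_mod_cast hl
  have h2 : x - (l : ℂ) ≠ 0 := by
    intro h
    rw [sub_eq_zero] at h
    rw [h, Complex.norm_natCast] at hx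
    linarith
  have h3 : (l : ℂ) + 1 ≠ 0 := by exact_mod_cast Nat.succ_ne_zero l
  exact div_ne_zero h2 h3

/-- the peak polynomials obtained from `f` (maximum `a`) by adding the element `a + 1 + i` -/
noncomputable def Qs (f : Polynomial ℝ) (a : ℕ) : ℕ → Polynomial ℝ
  | 0 => 0
  | i + 1 => C (f.eval ((a + 1 + i : ℕ) : ℝ)) * bnP (a + 1 + i) - 2 * f - Qs f a i

theorem Qs_zero (f : Polynomial ℝ) (a : ℕ) : Qs f a 0 = 0 := rfl

theorem Qs_succ (f : Polynomial ℝ) (a i : ℕ) :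
    Qs f a (i + 1) = C (f.eval ((a + 1 + i : ℕ) : ℝ)) * bnP (a + 1 + i) - 2 * f - Qs f a i := rfl

theorem Qs_aeval (f : Polynomial ℝ) (a i : ℕ) (x : ℂ) :
    aeval x (Qs f a (i + 1)) = ((f.eval ((a + 1 + i : ℕ) : ℝ) : ℝ) : ℂ) * bn (a + 1 + i) x
      - 2 * aeval x f - aeval x (Qs f a i) := by
  rw [Qs_succ, map_sub, map_sub, map_mul, map_mul, aeval_C, aeval_bnP, map_ofNat,
    Complex.coe_algebraMap]

/-- first part of the step: the functions `T_j / binomial` are in the cone -/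
theorem T_cone {f : Polynomial ℝ} {a : ℕ}
    (h1 : ∃ F Fr, Cone a F Fr ∧ ∀ x : ℂ, (a : ℝ) < ‖x‖ → aeval x f = bn (a + 1) x * F x)
    (hz : ∀ i, (Qs f a i).eval ((a + 1 + i : ℕ) : ℝ) = 0) (i : ℕ) :
    ∃ F Fr, Cone a F Fr ∧ ∀ x : ℂ, (a : ℝ) < ‖x‖ →
      aeval x (Qs f a i) + aeval x f = bn (a + 1 + i) x * F x := by
  induction i with
  | zero =>
    obtain ⟨F, Fr, c1, e1⟩ := h1
    refine ⟨F, Fr, c1, ?_⟩
    intro x hx
    rw [Qs_zero, map_zero, zero_add, e1 x hx]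
  | succ i ih =>
    obtain ⟨F, Fr, c1, e1⟩ := ih
    have hb : (a : ℝ) < ((a + 1 + i : ℕ) : ℝ) := by
      exact_mod_cast (by omega : a < a + 1 + i)
    obtain ⟨G, Gr, c2, e2⟩ := c1.dd hb
    -- value at a+1+i
    have e3 : (Fr ((a + 1 + i : ℕ) : ℝ)) = f.eval ((a + 1 + i : ℕ) : ℝ) := by
      have h := e1 ((a + 1 + i : ℕ) : ℂ) (by rw [Complex.norm_natCast]; exact hb)
      rw [aeval_nat, aeval_nat, hz i, bn_nat, Nat.choose_self] at h
      have h4 := c1.real ((a + 1 + i : ℕ) : ℝ)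
      rw [Complex.ofReal_natCast] at h4
      rw [h4] at h
      simp only [Complex.ofReal_zero, zero_add, Nat.cast_one, one_mul] at h
      exact_mod_cast h.symm
    refine ⟨_, _, Cone.smul ((a + 1 + i : ℕ) + 1) (by positivity) c2, ?_⟩
    intro x hx
    rw [Qs_aeval, ← e3, show a + 1 + (i + 1) = (a + 1 + i) + 1 by ring, bn_succ]
    have h5 := e1 x hx
    have h6 := e2 x hx
    have h7 : (((a + 1 + i : ℕ) : ℂ)) + 1 ≠ 0 := by exact_mod_cast Nat.succ_ne_zero (a + 1 + i)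
    rw [Complex.ofReal_natCast] at h6
    have h8 : aeval x (Qs f a i) = bn (a + 1 + i) x * F x - aeval x f := by
      linear_combination h5
    rw [h8]
    push_cast at h6 h7 ⊢
    field_simp
    linear_combination (bn (a + 1 + i) x) * h6

/-- `f / binomial` is in the cone -/
theorem W_cone {f : Polynomial ℝ} {a : ℕ}
    (h1 : ∃ F Fr, Cone a F Fr ∧ ∀ x : ℂ, (a : ℝ) < ‖x‖ → aeval x f = bn (a + 1) x * F x) (i : ℕ) :
    ∃ F Fr, Cone (a + i) F Fr ∧ ∀ x : ℂ, ((a + i : ℕ) : ℝ) < ‖x‖ →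
      aeval x f = bn (a + 1 + i) x * F x := by
  induction i with
  | zero =>
    obtain ⟨F, Fr, c1, e1⟩ := h1
    exact ⟨F, Fr, c1, fun x hx => e1 x (by simpa using hx)⟩
  | succ i ih =>
    obtain ⟨F, Fr, c1, e1⟩ := ih
    refine ⟨_, _, Cone.smul ((a + 1 + i : ℕ) + 1) (by positivity)
      (Cone.mul (c1.mono (by omega : a + i ≤ a + (i + 1)))
        (Cone.inv (a + 1 + i) (by omega : a + 1 + i ≤ a + (i + 1)))), ?_⟩
    intro x hx
    have hx' : ((a + i : ℕ) : ℝ) < ‖x‖ := by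
      push_cast at hx ⊢
      linarith
    rw [e1 x hx', show a + 1 + (i + 1) = (a + 1 + i) + 1 by ring, bn_succ]
    have h7 : (((a + 1 + i : ℕ) : ℂ)) + 1 ≠ 0 := by exact_mod_cast Nat.succ_ne_zero (a + 1 + i)
    have h8 : x - ((a + 1 + i : ℕ) : ℂ) ≠ 0 := by
      intro h
      rw [sub_eq_zero] at h
      rw [h, Complex.norm_natCast] at hx
      push_cast at hx
      linarith
    push_cast at h7 h8 ⊢
    field_simp

/-- the new polynomial is binomial times (value - cone element) -/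
theorem R_cone {f : Polynomial ℝ} {a : ℕ}
    (h1 : ∃ F Fr, Cone a F Fr ∧ ∀ x : ℂ, (a : ℝ) < ‖x‖ → aeval x f = bn (a + 1) x * F x)
    (hz : ∀ i, (Qs f a i).eval ((a + 1 + i : ℕ) : ℝ) = 0) (i : ℕ) :
    ∃ R Rr, Cone (a + i) R Rr ∧ Rr ((a + 2 + i : ℕ) : ℝ) = f.eval ((a + 1 + i : ℕ) : ℝ) ∧
      ∀ x : ℂ, ((a + i : ℕ) : ℝ) < ‖x‖ →
      aeval x (Qs f a (i + 1)) =
        bn (a + 1 + i) x * (((f.eval ((a + 1 + i : ℕ) : ℝ) : ℝ) : ℂ) - R x) := by
  obtain ⟨F, Fr, c1, e1⟩ := T_cone h1 hz i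
  obtain ⟨W, Wr, c2, e2⟩ := W_cone h1 i
  have c3 := Cone.add (c1.mono (by omega : a ≤ a + i)) c2
  have e3 : ∀ x : ℂ, ((a + i : ℕ) : ℝ) < ‖x‖ →
      aeval x (Qs f a (i + 1)) =
        bn (a + 1 + i) x * (((f.eval ((a + 1 + i : ℕ) : ℝ) : ℝ) : ℂ) - (F x + W x)) := by
    intro x hx
    have hx' : (a : ℝ) < ‖x‖ := by
      push_cast at hx
      have : (0 : ℝ) ≤ i := Nat.cast_nonneg i
      linarith
    rw [Qs_aeval]
    have h5 := e1 x hx'
    have h6 := e2 x hx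
    linear_combination (-1 : ℂ) * h5 - h6
  refine ⟨_, _, c3, ?_, e3⟩
  have h4 := e3 ((a + 2 + i : ℕ) : ℂ) (by
    rw [Complex.norm_natCast]
    exact_mod_cast (by omega : a + i < a + 2 + i))
  rw [aeval_nat, show a + 2 + i = a + 1 + (i + 1) by ring, hz (i + 1), bn_nat] at h4
  have h5 := c3.real ((a + 1 + (i + 1) : ℕ) : ℝ)
  rw [Complex.ofReal_natCast] at h5
  have h6 : (((a + 1 + (i + 1)).choose (a + 1 + i) : ℕ) : ℂ) ≠ 0 := by
    exact_mod_cast (Nat.choose_pos (by omega)).ne'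
  have h7 : (((f.eval ((a + 1 + i : ℕ) : ℝ) : ℝ) : ℂ) -
      (F ((a + 1 + (i + 1) : ℕ) : ℂ) + W ((a + 1 + (i + 1) : ℕ) : ℂ))) = 0 := by
    rcases mul_eq_zero.1 h4.symm with h | h
    · exact absurd h h6
    · exact h
  rw [sub_eq_zero] at h7
  rw [show a + 2 + i = a + 1 + (i + 1) by ring]
  have h8 : ((f.eval ((a + 1 + i : ℕ) : ℝ) : ℝ) : ℂ) =
      ((Fr ((a + 1 + (i + 1) : ℕ) : ℝ) + Wr ((a + 1 + (i + 1) : ℕ) : ℝ) : ℝ) : ℂ) := by
    rw [h7, h5]
  exact_mod_cast h8.symm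

end Pool.Agent.W243.Peak
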