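import Mathlib
import Pool.Agent.W243.PeakPoly

set_option autoImplicit false

/-!
# Estimates in the half plane `Re w > 3`
-/

namespace Pool.Agent.W243.Peak

open Finset Polynomial

/-- partial sums of the rising binomials -/
noncomputable def E (r : ℕ) (w : ℂ) : ℂ := ∏ l ∈ range r, ((w + (l + 1)) / (l + 1))

theorem E_succ (r : ℕ) (w : ℂ) : E (r + 1) w = E r w * ((w + (r + 1)) / (r + 1)) := by
  unfold E
  rw [prod_range_succ]

theorem B_eq_E (r : ℕ) (w : ℂ) : B (r + 1) w = E r w * (w / (r + 1)) := by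
  induction r with
  | zero => simp [B, E]
  | succ r ih =>
    rw [B_succ, ih, E_succ]
    have h1 : (r : ℂ) + 1 ≠ 0 := by exact_mod_cast Nat.succ_ne_zero r
    have h2 : (r : ℂ) + 1 + 1 ≠ 0 := by exact_mod_cast Nat.succ_ne_zero (r + 1)
    push_cast
    field_simp

theorem E_diff (r : ℕ) (w : ℂ) : E (r + 1) w - E r w = B (r + 1) w := by
  rw [B_eq_E, E_succ]
  have h1 : (r : ℂ) + 1 ≠ 0 := by exact_mod_cast Nat.succ_ne_zero r
  field_simp
  ring

theorem bin_B (j r : ℕ) (w : ℂ) :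
    ((j + r).choose j : ℂ) * B (j + r) w = B j w * B r (w + j) := by
  induction r with
  | zero => simp [B_zero]
  | succ r ih =>
    rw [← add_assoc, B_succ, B_succ, ← mul_assoc (B j w), ← ih]
    have h := Nat.choose_mul_succ_eq (j + r) j
    have h' : ((j + r).choose j : ℂ) * ((j : ℂ) + r + 1) =
        ((j + r + 1).choose j : ℂ) * ((r : ℂ) + 1) := by
      have : (((j + r).choose j * (j + r + 1) : ℕ) : ℂ) =
          (((j + r + 1).choose j * (j + r + 1 - j) : ℕ) : ℂ) := by rw [h]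
      rw [show j + r + 1 - j = r + 1 by omega] at this
      push_cast at this
      exact this
    have h1 : (r : ℂ) + 1 ≠ 0 := by exact_mod_cast Nat.succ_ne_zero r
    have h2 : (j : ℂ) + r + 1 ≠ 0 := by exact_mod_cast Nat.succ_ne_zero (j + r)
    push_cast
    field_simp
    linear_combination (-(B (j + r) w) * (w + j + r)) * h'

theorem ek_aux (δ : ℕ → ℝ) (F : ℕ → ℂ) (h0 : 0 ≤ δ 0) (hm : ∀ k, δ k ≤ δ (k + 1))
    (hF : ∀ k, ‖F k‖ ≤ ‖F (k + 1)‖) (n : ℕ) :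
    ‖∑ k ∈ range (n + 1), (δ k : ℂ) * (F (k + 1) - F k) - δ n * F (n + 1)‖ ≤
      (δ n - δ 0) * ‖F (n + 1)‖ + δ 0 * ‖F 0‖ := by
  induction n with
  | zero =>
    rw [zero_add, sum_range_one]
    have : (δ 0 : ℂ) * (F (0 + 1) - F 0) - δ 0 * F 1 = -((δ 0 : ℂ) * F 0) := by ring
    rw [this, norm_neg, norm_mul, Complex.norm_real, Real.norm_of_nonneg h0]
    simp
  | succ n ih =>
    have hd : δ 0 ≤ δ n := by
      induction n with
      | zero => exact le_rfl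
      | succ n ih' =>
        exact (monotone_nat_of_le_succ hm (Nat.zero_le _))
    rw [sum_range_succ]
    have e : ∑ k ∈ range (n + 1), (δ k : ℂ) * (F (k + 1) - F k) +
        (δ (n + 1) : ℂ) * (F (n + 1 + 1) - F (n + 1)) - δ (n + 1) * F (n + 1 + 1) =
        (∑ k ∈ range (n + 1), (δ k : ℂ) * (F (k + 1) - F k) - δ n * F (n + 1)) -
          ((δ (n + 1) - δ n : ℝ) : ℂ) * F (n + 1) := by
      push_cast
      ring
    rw [e]
    refine (norm_sub_le _ _).trans ?_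
    rw [norm_mul, Complex.norm_real, Real.norm_of_nonneg (sub_nonneg.2 (hm n))]
    have h1 := hF (n + 1)
    have h2 := hm n
    nlinarith [ih, mul_le_mul_of_nonneg_left h1 (by linarith : 0 ≤ δ (n + 1) - δ 0)]

theorem ek (δ : ℕ → ℝ) (F : ℕ → ℂ) (h0 : 0 ≤ δ 0) (hm : ∀ k, δ k ≤ δ (k + 1))
    (hF : ∀ k, ‖F k‖ ≤ ‖F (k + 1)‖) (n : ℕ) :
    δ 0 * (‖F (n + 1)‖ - ‖F 0‖) ≤ ‖∑ k ∈ range (n + 1), (δ k : ℂ) * (F (k + 1) - F k)‖ := by
  have h1 := ek_aux δ F h0 hm hF n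
  have h2 : δ 0 ≤ δ n := monotone_nat_of_le_succ hm (Nat.zero_le _)
  have h3 := norm_sub_norm_le ((δ n : ℂ) * F (n + 1))
    (∑ k ∈ range (n + 1), (δ k : ℂ) * (F (k + 1) - F k))
  rw [norm_sub_rev, norm_mul, Complex.norm_real, Real.norm_of_nonneg (h0.trans h2)] at h3
  nlinarith

theorem norm_ge_re {w : ℂ} {s : ℝ} (h : s < w.re) : s < ‖w‖ :=
  lt_of_lt_of_le h (Complex.re_le_norm w)

theorem E_mono {w : ℂ} (hw : 0 ≤ w.re) (k : ℕ) : ‖E k w‖ ≤ ‖E (k + 1) w‖ := by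
  rw [E_succ, norm_mul, norm_div]
  have h1 : ‖(k : ℂ) + 1‖ = (k : ℝ) + 1 := by
    have := Complex.norm_natCast (k + 1)
    push_cast at this
    exact this
  rw [h1]
  have h2 : (k : ℝ) + 1 ≤ ‖w + (k + 1)‖ := by
    refine le_trans ?_ (Complex.re_le_norm _)
    simp only [Complex.add_re, Complex.natCast_re, Complex.one_re]
    linarith
  have h3 : (1 : ℝ) ≤ ‖w + (k + 1)‖ / ((k : ℝ) + 1) := by
    rw [le_div_iff₀ (by positivity)]
    linarith
  nlinarith [norm_nonneg (E k w)]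

theorem key_ineq {w : ℂ} (hw : 4 ≤ w.re) : ‖B 2 w‖ ≤ ‖E 3 w‖ - ‖E 1 w‖ := by
  have e1 : B 2 w = w * (w + 1) / 2 := by
    simp only [B, prod_range_succ, prod_range_zero]
    push_cast
    ring
  have e2 : E 3 w = (w + 1) * ((w + 2) * (w + 3) / 6) := by
    simp only [E, prod_range_succ, prod_range_zero]
    push_cast
    ring
  have e3 : E 1 w = w + 1 := by
    simp only [E, prod_range_succ, prod_range_zero]
    push_cast
    ring
  rw [e1, e2, e3, norm_div, norm_mul, norm_mul, norm_div, norm_mul]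
  have n2 : ‖(2 : ℂ)‖ = 2 := by simp
  have n6 : ‖(6 : ℂ)‖ = 6 := by simp
  rw [n2, n6]
  set s := ‖w‖ with hs
  set u := ‖w + 2‖ with hu
  set v := ‖w + 3‖ with hv
  have s0 : 0 ≤ s := norm_nonneg _
  have u0 : 0 ≤ u := norm_nonneg _
  have v0 : 0 ≤ v := norm_nonneg _
  have q1 : s ^ 2 = w.re ^ 2 + w.im ^ 2 := by
    rw [hs, Complex.sq_norm, Complex.normSq_apply]; ring
  have q2 : u ^ 2 = (w.re + 2) ^ 2 + w.im ^ 2 := by
    rw [hu, Complex.sq_norm, Complex.normSq_apply]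
    simp
    ring
  have q3 : v ^ 2 = (w.re + 3) ^ 2 + w.im ^ 2 := by
    rw [hv, Complex.sq_norm, Complex.normSq_apply]
    simp
    ring
  have h1 : s ^ 2 + 20 ≤ u ^ 2 := by nlinarith
  have h2 : s ^ 2 + 20 ≤ v ^ 2 := by nlinarith
  have h3 : s ^ 2 + 20 ≤ u * v := by
    by_contra hcon
    push Not at hcon
    have h4 : (s ^ 2 + 20) * (s ^ 2 + 20) ≤ u ^ 2 * v ^ 2 :=
      mul_le_mul h1 h2 (by positivity) (by positivity)
    have h5 : (u * v) * (u * v) < (s ^ 2 + 20) * (s ^ 2 + 20) :=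
      mul_self_lt_mul_self (by positivity) hcon
    nlinarith
  have h4 : s / 2 ≤ u * v / 6 - 1 := by nlinarith [sq_nonneg (s - 3 / 2)]
  have h5 : 0 ≤ ‖w + 1‖ := norm_nonneg _
  nlinarith [mul_le_mul_of_nonneg_left h4 h5]

/-- lower bound for the main sum -/
theorem V_lower {f : Polynomial ℝ} {a : ℕ} {γ : ℕ → ℝ} (ha : 2 ≤ a)
    (hγ : ∀ k : ℕ, a ≤ k → f.eval (k : ℝ) = (k.choose (a - 1) : ℝ) * γ k)
    (hmono : ∀ k : ℕ, a ≤ k → γ k ≤ γ (k + 1)) (hpos : 0 ≤ γ (a + 1)) {w : ℂ}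
    (hw : 3 < w.re) (i : ℕ) :
    f.eval ((a + 1 : ℕ) : ℝ) * ‖B (a + 1) w‖ ≤
      ‖∑ k ∈ range (i + 1), ((f.eval ((a + 1 + k : ℕ) : ℝ) : ℝ) : ℂ) * B (a + 1 + k) w‖ := by
  obtain ⟨b, rfl⟩ : ∃ b, a = b + 1 := ⟨a - 1, by omega⟩
  have hb : 1 ≤ b := by omega
  simp only [Nat.add_sub_cancel] at hγ
  have hterm : ∀ k : ℕ, ((f.eval ((b + 1 + 1 + k : ℕ) : ℝ) : ℝ) : ℂ) * B (b + 1 + 1 + k) w =
      B b w * ((γ (b + 2 + k) : ℂ) * (E (k + 1 + 1) (w + b) - E (k + 1) (w + b))) := by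
    intro k
    have h1 := bin_B b (k + 2) w
    rw [hγ (b + 1 + 1 + k) (by omega), E_diff, show b + 1 + 1 + k = b + (k + 2) by ring]
    push_cast
    linear_combination (γ (b + (k + 2)) : ℂ) * h1
  rw [sum_congr rfl (fun k _ => hterm k), ← mul_sum, norm_mul]
  have h0 : f.eval ((b + 1 + 1 : ℕ) : ℝ) * ‖B (b + 1 + 1) w‖ =
      ‖B b w‖ * (γ (b + 2) * ‖B 2 (w + b)‖) := by
    have h1 := bin_B b 2 w
    have h2 := congrArg norm h1
    rw [norm_mul, norm_mul, Complex.norm_natCast] at h2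
    rw [hγ (b + 1 + 1) (by omega), show b + 1 + 1 = b + 2 by ring]
    linear_combination γ (b + 2) * h2
  rw [h0]
  refine mul_le_mul_of_nonneg_left ?_ (norm_nonneg _)
  have hw' : 4 ≤ (w + b).re := by
    simp only [Complex.add_re, Complex.natCast_re]
    have : (1 : ℝ) ≤ b := by exact_mod_cast hb
    linarith
  rcases Nat.eq_zero_or_pos i with rfl | hi
  · rw [zero_add, sum_range_one, norm_mul, Complex.norm_real, E_diff]
    simp only [add_zero, Nat.reduceAdd]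
    rw [Real.norm_of_nonneg hpos]
  · have h1 := ek (fun k => γ (b + 2 + k)) (fun k => E (k + 1) (w + b)) (by simpa using hpos)
      (fun k => hmono (b + 2 + k) (by omega)) (fun k => E_mono (by linarith) (k + 1)) i
    refine le_trans ?_ h1
    simp only [add_zero, zero_add]
    refine mul_le_mul_of_nonneg_left ?_ hpos
    have h2 := key_ineq hw'
    have h3 : ‖E 3 (w + b)‖ ≤ ‖E (i + 1 + 1) (w + b)‖ := by
      have hm : Monotone (fun k => ‖E k (w + b)‖) :=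
        monotone_nat_of_le_succ (fun k => E_mono (by linarith) k)
      exact hm (by omega : 3 ≤ i + 1 + 1)
    linarith

/-- the normalised norms of the rising binomials increase -/
theorem b_mono {w : ℂ} (hw : 3 < w.re) :
    StrictMono (fun k : ℕ => ‖B k w‖ / (((k : ℝ) + 1) * (k + 2))) := by
  have hpos : ∀ k : ℕ, 0 < ‖B k w‖ := by
    intro k
    induction k with
    | zero => rw [B_zero]; simp
    | succ k ih =>
      rw [B_succ, norm_mul]
      refine mul_pos ih ?_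
      rw [norm_pos_iff]
      refine div_ne_zero ?_ (by exact_mod_cast Nat.succ_ne_zero k)
      intro h
      have := congrArg Complex.re h
      simp only [Complex.add_re, Complex.natCast_re, Complex.zero_re] at this
      have hk : (0 : ℝ) ≤ k := Nat.cast_nonneg k
      linarith
  apply strictMono_nat_of_lt_succ
  intro k
  have h0 := hpos k
  have h1 : ‖(k : ℂ) + 1‖ = (k : ℝ) + 1 := by
    have := Complex.norm_natCast (k + 1)
    push_cast at this
    exact this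
  have h2 : (k : ℝ) + 3 < ‖w + k‖ := by
    refine lt_of_lt_of_le ?_ (Complex.re_le_norm _)
    simp only [Complex.add_re, Complex.natCast_re]
    linarith
  have hk : (0 : ℝ) ≤ k := Nat.cast_nonneg k
  rw [B_succ, norm_mul, norm_div, h1, div_lt_div_iff₀ (by positivity) (by positivity)]
  push_cast
  have e : ‖B k w‖ * (‖w + k‖ / ((k : ℝ) + 1)) * (((k : ℝ) + 1) * (k + 2)) =
      ‖B k w‖ * ‖w + k‖ * (k + 2) := by
    field_simp
  rw [e]
  have h3 : ‖B k w‖ * ((k : ℝ) + 3) < ‖B k w‖ * ‖w + k‖ := by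
    exact mul_lt_mul_of_pos_left h2 h0
  nlinarith

/-- the value at `-w` of the new polynomial -/
theorem Q_hat (f : Polynomial ℝ) (a i : ℕ) (w : ℂ) :
    (-1) ^ (a + i) * aeval (-w) (Qs f a i) =
      ∑ k ∈ range i, ((f.eval ((a + 1 + k : ℕ) : ℝ) : ℝ) : ℂ) * B (a + 1 + k) w +
        2 * (-1) ^ a * aeval (-w) f * ∑ k ∈ range i, (-1 : ℂ) ^ k := by
  induction i with
  | zero => simp [Qs_zero]
  | succ i ih =>
    rw [sum_range_succ, sum_range_succ, Qs_aeval, bn_neg]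
    have h1 : ((-1 : ℂ) ^ (a + 1 + i)) * ((-1 : ℂ) ^ (a + 1 + i)) = 1 := by
      rw [← mul_pow]; simp
    have h2 : ((-1 : ℂ) ^ (a + (i + 1))) = (-1) ^ (a + 1 + i) := by
      congr 1; ring
    have h3 : ((-1 : ℂ) ^ (a + 1 + i)) = - (-1) ^ (a + i) := by
      rw [show a + 1 + i = (a + i) + 1 by ring, pow_succ]; ring
    have h4 : ((-1 : ℂ) ^ (a + i)) = (-1) ^ a * (-1) ^ i := pow_add _ _ _
    rw [h2]
    linear_combination ih + (((f.eval ((a + 1 + i : ℕ) : ℝ) : ℝ) : ℂ) * B (a + 1 + i) w) * h1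
      - (2 * aeval (-w) f + aeval (-w) (Qs f a i)) * h3 + 2 * aeval (-w) f * h4

theorem Q_hat' (f : Polynomial ℝ) (a i : ℕ) (w : ℂ) :
    ∃ z : ℂ, ‖z‖ ≤ 2 * ‖aeval (-w) f‖ ∧ ‖aeval (-w) (Qs f a i)‖ =
      ‖∑ k ∈ range i, ((f.eval ((a + 1 + k : ℕ) : ℝ) : ℝ) : ℂ) * B (a + 1 + k) w + z‖ := by
  refine ⟨2 * (-1) ^ a * aeval (-w) f * ∑ k ∈ range i, (-1 : ℂ) ^ k, ?_, ?_⟩
  · rw [neg_one_geom_sum, norm_mul, norm_mul, norm_mul, norm_pow]
    simp only [Complex.norm_ofNat, norm_neg, norm_one, one_pow, mul_one]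
    split_ifs
    · simp
    · simp
  · rw [← Q_hat, norm_mul, norm_pow]
    simp

/-- the sum estimate -/
theorem sum_bound {φ : ℕ → ℝ} {a : ℕ} (ha : 2 ≤ a) (hpos : ∀ k, a + 1 ≤ k → 0 < φ k)
    (hr : ∀ k, a + 1 ≤ k → φ k * ((k : ℝ) + 1) ≤ φ (k + 1) * k) (i : ℕ) :
    4 * (∑ k ∈ range (i + 1), φ (a + 1 + k) * (((a + 1 + k : ℕ) : ℝ) + 1) *
      (((a + 1 + k : ℕ) : ℝ) + 2)) * ((a : ℝ) + 1 + i) ≤
      φ (a + 1 + i) * (((a : ℝ) + 1 + i) * (a + 2 + i) * (a + 3 + i) * (a + 4 + i) -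
        a * (a + 1) * (a + 2) * (a + 3)) := by
  induction i with
  | zero =>
    rw [zero_add, sum_range_one]
    push_cast
    apply le_of_eq
    simp only [add_zero]
    ring
  | succ i ih =>
    rw [sum_range_succ]
    set S := ∑ k ∈ range (i + 1), φ (a + 1 + k) * (((a + 1 + k : ℕ) : ℝ) + 1) *
      (((a + 1 + k : ℕ) : ℝ) + 2) with hS
    have h1 := hr (a + 1 + i) (by omega)
    have h2 := hpos (a + 1 + i) (by omega)
    rw [show a + 1 + i + 1 = a + 1 + (i + 1) by ring] at h1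
    set y := φ (a + 1 + (i + 1)) with hy
    set x := φ (a + 1 + i) with hx
    push_cast at h1 ⊢
    set n : ℝ := (a : ℝ) + 1 + i with hn
    have hn0 : 0 < n := by positivity
    have ha0 : (0 : ℝ) ≤ a := Nat.cast_nonneg a
    have hi0 : (0 : ℝ) ≤ i := Nat.cast_nonneg i
    set P : ℝ := n * (a + 2 + i) * (a + 3 + i) * (a + 4 + i) - a * (a + 1) * (a + 2) * (a + 3)
      with hP
    have hP0 : 0 ≤ P := by
      have e : P = n * (n + 1) * (n + 2) * (n + 3) - a * (a + 1) * (a + 2) * (a + 3) := by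
        rw [hP, hn]; ring
      have hna : (a : ℝ) ≤ n := by rw [hn]; linarith
      rw [e]
      have : (a : ℝ) * (a + 1) * (a + 2) * (a + 3) ≤ n * (n + 1) * (n + 2) * (n + 3) := by
        gcongr
      linarith
    -- 4 S n ≤ x P, hence 4 S (n+1) n ≤ x (n+1) P ≤ y n P
    have h3 : 4 * S * (n + 1) * n ≤ (y * P) * n := by
      have h4 : 4 * S * n * (n + 1) ≤ x * P * (n + 1) :=
        mul_le_mul_of_nonneg_right ih (by linarith)
      have h5 : (x * (n + 1)) * P ≤ (y * n) * P := mul_le_mul_of_nonneg_right h1 hP0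
      nlinarith
    have h6 : 4 * S * (n + 1) ≤ y * P := le_of_mul_le_mul_right h3 hn0
    have e2 : (a : ℝ) + 1 + (i + 1) = n + 1 := by rw [hn]; ring
    rw [e2, show (a : ℝ) + 2 + (i + 1) = n + 2 by rw [hn]; ring,
      show (a : ℝ) + 3 + (i + 1) = n + 3 by rw [hn]; ring,
      show (a : ℝ) + 4 + (i + 1) = n + 4 by rw [hn]; ring]
    have e3 : P = n * (n + 1) * (n + 2) * (n + 3) - a * (a + 1) * (a + 2) * (a + 3) := by
      rw [hP, hn]; ring
    rw [e3] at h6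
    linarith

theorem ratio_bound {φ : ℕ → ℝ} {a : ℕ} (hpos : ∀ k, a + 1 ≤ k → 0 < φ k)
    (hr : ∀ k, a + 1 ≤ k → φ k * ((k : ℝ) + 1) ≤ φ (k + 1) * k) (i : ℕ) :
    φ (a + 1) * ((a : ℝ) + 1 + i) ≤ φ (a + 1 + i) * ((a : ℝ) + 1) := by
  induction i with
  | zero => simp
  | succ i ih =>
    have h1 := hr (a + 1 + i) (by omega)
    have h2 := hpos (a + 1) le_rfl
    rw [show a + 1 + i + 1 = a + 1 + (i + 1) by ring] at h1
    push_cast at h1 ⊢
    have hn0 : (0 : ℝ) < (a : ℝ) + 1 + i := by positivity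
    have ha1 : (0 : ℝ) < (a : ℝ) + 1 := by positivity
    have h3 : φ (a + 1) * ((a : ℝ) + 1 + (i + 1)) * ((a : ℝ) + 1 + i) ≤
        φ (a + 1 + (i + 1)) * ((a : ℝ) + 1) * ((a : ℝ) + 1 + i) := by
      nlinarith [mul_le_mul_of_nonneg_right ih (by positivity : (0 : ℝ) ≤ (a : ℝ) + 1 + i + 1),
        mul_le_mul_of_nonneg_right h1 ha1.le]
    exact le_of_mul_le_mul_right h3 hn0

end Pool.Agent.W243.Peak
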