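import Mathlib
import Pool.Agent.W243.PeakEst

set_option autoImplicit false

/-!
# The induction step for the zeros
-/

namespace Pool.Agent.W243.Peak

open Finset Polynomial

/-- the data carried through the induction -/
structure Dat (a : ℕ) (f : Polynomial ℝ) : Prop where
  cone : ∃ F Fr, Cone a F Fr ∧ ∀ x : ℂ, (a : ℝ) < ‖x‖ → aeval x f = bn (a + 1) x * F x
  pos : ∀ k : ℕ, a + 1 ≤ k → 0 < f.eval (k : ℝ)
  base : a = 0 → f = 1
  step : a ≠ 0 → 2 ≤ a ∧
    (∃ γ : ℕ → ℝ, (∀ k : ℕ, a ≤ k → f.eval (k : ℝ) = (k.choose (a - 1) : ℝ) * γ k) ∧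
      (∀ k : ℕ, a ≤ k → γ k ≤ γ (k + 1)) ∧ 0 ≤ γ (a + 1)) ∧
    (∀ w : ℂ, 3 < w.re → 2 * ‖aeval (-w) f‖ < f.eval ((a + 1 : ℕ) : ℝ) * ‖B (a + 1) w‖) ∧
    (∀ x : ℂ, aeval x f = 0 → ‖x‖ ≤ a ∧ -3 ≤ x.re)

theorem dat_zero : Dat 0 1 where
  cone := by
    refine ⟨_, _, Cone.inv 0 le_rfl, ?_⟩
    intro x hx
    have hx0 : x ≠ 0 := by
      rintro rfl
      simp at hx
    rw [map_one, zero_add, bn, prod_range_one]
    simp only [Nat.cast_zero, sub_zero, zero_add, div_one]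
    rw [mul_inv_cancel₀ hx0]
  pos := by
    intro k _
    simp
  base := fun _ => rfl
  step := fun h => absurd rfl h

theorem ratio_of {f : Polynomial ℝ} {a : ℕ} (ha : 2 ≤ a) {γ : ℕ → ℝ}
    (hγ : ∀ k : ℕ, a ≤ k → f.eval (k : ℝ) = (k.choose (a - 1) : ℝ) * γ k)
    (hmono : ∀ k : ℕ, a ≤ k → γ k ≤ γ (k + 1)) (hpos : ∀ k : ℕ, a + 1 ≤ k → 0 < f.eval (k : ℝ))
    (k : ℕ) (hk : a + 1 ≤ k) :
    f.eval (k : ℝ) * ((k : ℝ) + 1) ≤ f.eval ((k + 1 : ℕ) : ℝ) * k := by
  rw [hγ k (by omega), hγ (k + 1) (by omega)]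
  have h1 := hmono k (by omega)
  have h2 := hpos k hk
  rw [hγ k (by omega)] at h2
  have hc : (0 : ℝ) ≤ (k.choose (a - 1) : ℝ) := Nat.cast_nonneg _
  have hg : 0 < γ k := by
    by_contra hcon
    push Not at hcon
    nlinarith
  have h3 : (k.choose (a - 1) : ℝ) * ((k : ℝ) + 1) ≤ ((k + 1).choose (a - 1) : ℝ) * k := by
    have h := Nat.choose_mul_succ_eq k (a - 1)
    have h4 : (k + 1).choose (a - 1) * (k + 1 - (a - 1)) ≤ (k + 1).choose (a - 1) * k :=
      Nat.mul_le_mul_left _ (by omega)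
    rw [← h] at h4
    exact_mod_cast h4
  have hc' : (0 : ℝ) ≤ ((k + 1).choose (a - 1) : ℝ) * k := by positivity
  calc (k.choose (a - 1) : ℝ) * γ k * ((k : ℝ) + 1)
      = ((k.choose (a - 1) : ℝ) * ((k : ℝ) + 1)) * γ k := by ring
    _ ≤ (((k + 1).choose (a - 1) : ℝ) * k) * γ (k + 1) := by
        refine mul_le_mul h3 h1 hg.le hc'
    _ = _ := by ring

/-- the values for `S` empty -/
theorem Qs_one (i n : ℕ) : (Qs 1 0 i).eval ((n + 1 : ℕ) : ℝ) = (n.choose i : ℝ) - 1 := by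
  induction i with
  | zero => simp [Qs_zero]
  | succ i ih =>
    rw [Qs_succ, eval_sub, eval_sub, eval_mul, eval_C, ih, eval_bnP, eval_mul]
    simp only [eval_one, one_mul, eval_ofNat, mul_one]
    rw [show 0 + 1 + i = i + 1 by ring, Nat.choose_succ_succ]
    push_cast
    ring

theorem sum_one (i : ℕ) : 2 * ∑ k ∈ range (i + 1), (((0 + 1 + k : ℕ) : ℝ) + 1) *
      (((0 + 1 + k : ℕ) : ℝ) + 2) + 8 ≤ ((i : ℝ) + 1) * (i + 4) * (i + 5) := by
  induction i with
  | zero =>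
    rw [zero_add, sum_range_one]
    norm_num
  | succ i ih =>
    rw [sum_range_succ]
    push_cast at ih ⊢
    have hi : (0 : ℝ) ≤ i := Nat.cast_nonneg i
    nlinarith

/-- the norm bound from the monotonicity of the normalised norms -/
theorem B_bound {w : ℂ} (hw : 3 < w.re) {k M : ℕ} (h : k ≤ M) :
    ‖B k w‖ ≤ ‖B M w‖ / (((M : ℝ) + 1) * (M + 2)) * (((k : ℝ) + 1) * (k + 2)) := by
  have h1 := (b_mono hw).monotone h
  beta_reduce at h1
  rw [div_le_iff₀ (by positivity)] at h1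
  exact h1

theorem E_gt {w : ℂ} (hw : 3 < w.re) (i : ℕ) : 4 < ‖E (i + 1) w‖ := by
  have hm : Monotone (fun k => ‖E k w‖) :=
    monotone_nat_of_le_succ (fun k => E_mono (by linarith) k)
  have h1 : ‖E 1 w‖ ≤ ‖E (i + 1) w‖ := hm (by omega)
  refine lt_of_lt_of_le ?_ h1
  have e3 : E 1 w = w + 1 := by
    simp only [E, prod_range_succ, prod_range_zero]
    push_cast
    ring
  rw [e3]
  refine lt_of_lt_of_le ?_ (Complex.re_le_norm _)
  simp only [Complex.add_re, Complex.one_re]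
  linarith

theorem V_one (i : ℕ) (w : ℂ) :
    ∑ k ∈ range (i + 1), (((1 : Polynomial ℝ).eval ((0 + 1 + k : ℕ) : ℝ) : ℝ) : ℂ) *
      B (0 + 1 + k) w = E (i + 1) w - 1 := by
  have e0 : E 0 w = 1 := by simp [E]
  have h : ∀ n : ℕ, ∑ k ∈ range n, (((1 : Polynomial ℝ).eval ((0 + 1 + k : ℕ) : ℝ) : ℝ) : ℂ) *
      B (0 + 1 + k) w = E n w - 1 := by
    intro n
    induction n with
    | zero => simp [e0]
    | succ n ih =>
      rw [sum_range_succ, ih, show 0 + 1 + n = n + 1 by ring, ← E_diff]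
      simp only [eval_one, Complex.ofReal_one, one_mul]
      ring
  exact h (i + 1)

/-- lower bound: no zero in the half plane -/
theorem no_zero {f : Polynomial ℝ} {a : ℕ} (hf : Dat a f) (i : ℕ) {w : ℂ} (hw : 3 < w.re) :
    aeval (-w) (Qs f a (i + 1)) ≠ 0 := by
  obtain ⟨z, hz1, hz2⟩ := Q_hat' f a (i + 1) w
  intro h0
  rw [h0, norm_zero] at hz2
  by_cases ha : a = 0
  · subst ha
    have hf1 := hf.base rfl
    subst hf1
    rw [V_one] at hz2
    rw [map_one, norm_one] at hz1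
    have h1 := E_gt hw i
    have h2 := norm_sub_norm_le (E (i + 1) w) (1 - z)
    rw [show E (i + 1) w - (1 - z) = E (i + 1) w - 1 + z by ring, ← hz2] at h2
    have h3 := norm_sub_le (1 : ℂ) z
    rw [norm_one] at h3
    linarith
  · obtain ⟨ha2, ⟨γ, hγ, hmono, hpos⟩, hK, _⟩ := hf.step ha
    have h1 := V_lower ha2 hγ hmono hpos hw i
    have h2 := hK w hw
    have h3 := norm_sub_norm_le (∑ k ∈ range (i + 1),
      ((f.eval ((a + 1 + k : ℕ) : ℝ) : ℝ) : ℂ) * B (a + 1 + k) w) (-z)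
    rw [sub_neg_eq_add, ← hz2, norm_neg] at h3
    linarith

/-- upper bound -/
theorem upper {f : Polynomial ℝ} {a : ℕ} (hf : Dat a f) (i : ℕ)
    (hlow : ((a + 2 + i : ℕ) : ℝ) * f.eval ((a + 1 + i : ℕ) : ℝ) ≤
      2 * (Qs f a (i + 1)).eval ((a + 3 + i : ℕ) : ℝ)) {w : ℂ} (hw : 3 < w.re) :
    2 * ‖aeval (-w) (Qs f a (i + 1))‖ <
      (Qs f a (i + 1)).eval ((a + 3 + i : ℕ) : ℝ) * ‖B (a + 3 + i) w‖ := by
  obtain ⟨z, hz1, hz2⟩ := Q_hat' f a (i + 1) w
  set M := a + 3 + i with hM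
  set bb := ‖B M w‖ / (((M : ℝ) + 1) * (M + 2)) with hbb
  have hbM : ‖B M w‖ = bb * (((M : ℝ) + 1) * (M + 2)) := by
    rw [hbb]; field_simp
  have hM0 : (‖B 0 w‖ / (((0 : ℕ) : ℝ) + 1) / (((0 : ℕ) : ℝ) + 2)) < bb := by
    have := b_mono hw (by omega : 0 < M)
    simp only at this
    rw [div_div]
    exact this
  rw [B_zero, norm_one] at hM0
  norm_num at hM0
  have hbb0 : 0 < bb := by linarith
  have h1 : ‖aeval (-w) (Qs f a (i + 1))‖ ≤
      (∑ k ∈ range (i + 1), f.eval ((a + 1 + k : ℕ) : ℝ) * ‖B (a + 1 + k) w‖) +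
        2 * ‖aeval (-w) f‖ := by
    rw [hz2]
    refine (norm_add_le _ _).trans (add_le_add ?_ hz1)
    refine (norm_sum_le _ _).trans (le_of_eq ?_)
    refine sum_congr rfl (fun k _ => ?_)
    rw [norm_mul, Complex.norm_real, Real.norm_of_nonneg (hf.pos _ (by omega)).le]
  have h2 : (∑ k ∈ range (i + 1), f.eval ((a + 1 + k : ℕ) : ℝ) * ‖B (a + 1 + k) w‖) ≤
      bb * ∑ k ∈ range (i + 1), f.eval ((a + 1 + k : ℕ) : ℝ) * (((a + 1 + k : ℕ) : ℝ) + 1) *
      (((a + 1 + k : ℕ) : ℝ) + 2) := by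
    rw [mul_sum]
    refine sum_le_sum (fun k hk => ?_)
    rw [mem_range] at hk
    have h3 := B_bound hw (by omega : a + 1 + k ≤ M)
    have h4 := (hf.pos (a + 1 + k) (by omega)).le
    calc _ ≤ f.eval ((a + 1 + k : ℕ) : ℝ) * (bb * ((((a + 1 + k : ℕ) : ℝ) + 1) *
          (((a + 1 + k : ℕ) : ℝ) + 2))) := mul_le_mul_of_nonneg_left h3 h4
      _ = _ := by ring
  by_cases ha : a = 0
  · subst ha
    have hf1 := hf.base rfl
    subst hf1
    have h5 : (Qs 1 0 (i + 1)).eval ((M : ℕ) : ℝ) = (i : ℝ) + 1 := by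
      rw [hM, show 0 + 3 + i = (i + 2) + 1 by ring, Qs_one, show i + 2 = (i + 1) + 1 by ring,
        Nat.choose_succ_self_right]
      push_cast
      ring
    rw [h5, hbM]
    rw [map_one, norm_one] at h1
    have h6 := sum_one i
    simp only [eval_one, one_mul] at h1 h2
    set T := ∑ k ∈ range (i + 1), (((0 + 1 + k : ℕ) : ℝ) + 1) *
      (((0 + 1 + k : ℕ) : ℝ) + 2) with hT
    have h7 : (M : ℝ) = i + 3 := by rw [hM]; push_cast; ring
    rw [h7]
    have h8 : bb * (2 * T + 8) ≤ bb * (((i : ℝ) + 1) * (i + 4) * (i + 5)) :=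
      mul_le_mul_of_nonneg_left h6 hbb0.le
    nlinarith
  · obtain ⟨ha2, ⟨γ, hγ, hmono, hpos⟩, hK, _⟩ := hf.step ha
    have h5 := hK w hw
    have h6 := B_bound hw (by omega : a + 1 ≤ M)
    have hr := ratio_of ha2 hγ hmono hf.pos
    have h7 := sum_bound (φ := fun k => f.eval (k : ℝ)) ha2 hf.pos hr i
    have h8 := ratio_bound (φ := fun k => f.eval (k : ℝ)) hf.pos hr i
    beta_reduce at h7 h8
    set T := ∑ k ∈ range (i + 1), f.eval ((a + 1 + k : ℕ) : ℝ) * (((a + 1 + k : ℕ) : ℝ) + 1) *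
      (((a + 1 + k : ℕ) : ℝ) + 2) with hT
    set v := f.eval ((a + 1 + i : ℕ) : ℝ) with hv
    set y := f.eval ((a + 1 : ℕ) : ℝ) with hy
    have hv0 : 0 < v := hf.pos _ (by omega)
    have hy0 : 0 < y := hf.pos _ (by omega)
    have ha2' : (2 : ℝ) ≤ a := by exact_mod_cast ha2
    have hi0 : (0 : ℝ) ≤ i := Nat.cast_nonneg i
    -- the combined inequality
    have h9 : 4 * (T + y * (((a : ℝ) + 2) * (a + 3))) ≤
        v * (((a : ℝ) + 2 + i) * (a + 4 + i) * (a + 5 + i)) := by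
      have hn : (0 : ℝ) < (a : ℝ) + 1 + i := by positivity
      have hp : ((a : ℝ) + 1 + i) * (a + 2 + i) * (a + 3 + i) * (a + 4 + i) -
        a * (a + 1) * (a + 2) * (a + 3) + 4 * ((a + 1) * (a + 2) * (a + 3)) ≤
        ((a : ℝ) + 2 + i) * (a + 4 + i) * (a + 5 + i) * ((a : ℝ) + 1 + i) := by
        obtain ⟨t, ht⟩ : ∃ t : ℝ, (a : ℝ) = 2 + t := ⟨a - 2, by ring⟩
        have ht0 : 0 ≤ t := by linarith
        rw [ht]
        ring_nf
        nlinarith [mul_nonneg ht0 ht0, mul_nonneg ht0 hi0, mul_nonneg hi0 hi0,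
          mul_nonneg (mul_nonneg ht0 ht0) hi0, mul_nonneg (mul_nonneg ht0 hi0) hi0,
          mul_nonneg (mul_nonneg ht0 ht0) ht0, mul_nonneg (mul_nonneg hi0 hi0) hi0,
          mul_nonneg (mul_nonneg ht0 ht0) (mul_nonneg ht0 ht0)]
      have h10 : 4 * (T + y * (((a : ℝ) + 2) * (a + 3))) * ((a : ℝ) + 1 + i) ≤
          v * (((a : ℝ) + 2 + i) * (a + 4 + i) * (a + 5 + i)) * ((a : ℝ) + 1 + i) := by
        have h11 := mul_le_mul_of_nonneg_left hp hv0.le
        have h12 : 4 * (y * ((a : ℝ) + 1 + i)) * (((a : ℝ) + 2) * (a + 3)) ≤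
            4 * (v * ((a : ℝ) + 1)) * (((a : ℝ) + 2) * (a + 3)) := by
          refine mul_le_mul_of_nonneg_right ?_ (by positivity)
          linarith
        nlinarith
      exact le_of_mul_le_mul_right h10 hn
    have h13 : ‖B (a + 1) w‖ ≤ bb * (((a : ℝ) + 2) * (a + 3)) := by
      refine h6.trans (le_of_eq ?_)
      push_cast
      ring
    have h14 : y * ‖B (a + 1) w‖ ≤ y * (bb * (((a : ℝ) + 2) * (a + 3))) :=
      mul_le_mul_of_nonneg_left h13 hy0.le
    have h15 : 2 * ‖aeval (-w) (Qs f a (i + 1))‖ <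
        2 * (bb * (T + y * (((a : ℝ) + 2) * (a + 3)))) := by
      have e : bb * (T + y * (((a : ℝ) + 2) * (a + 3))) =
        bb * T + y * (bb * (((a : ℝ) + 2) * (a + 3))) := by ring
      rw [e]
      linarith
    refine lt_of_lt_of_le h15 ?_
    rw [hbM]
    have h16 : (M : ℝ) = a + 3 + i := by rw [hM]; push_cast; ring
    set g := (Qs f a (i + 1)).eval ((M : ℕ) : ℝ) with hg
    push_cast at hlow
    have h17 : bb * (4 * (T + y * (((a : ℝ) + 2) * (a + 3)))) ≤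
        bb * (v * (((a : ℝ) + 2 + i) * (a + 4 + i) * (a + 5 + i))) :=
      mul_le_mul_of_nonneg_left h9 hbb0.le
    have h18 : (bb * ((a + 4 + i) * (a + 5 + i))) * (((a : ℝ) + 2 + i) * v) ≤
        (bb * ((a + 4 + i) * (a + 5 + i))) * (2 * g) :=
      mul_le_mul_of_nonneg_left hlow (by positivity)
    rw [h16]
    have e1 : g * (bb * ((((a : ℝ) + 3 + i) + 1) * (((a : ℝ) + 3 + i) + 2))) =
        (bb * ((a + 4 + i) * (a + 5 + i))) * (2 * g) / 2 := by ring
    have e2 : (bb * (((a : ℝ) + 4 + i) * (a + 5 + i))) * (((a : ℝ) + 2 + i) * v) =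
        bb * (v * (((a : ℝ) + 2 + i) * (a + 4 + i) * (a + 5 + i))) := by ring
    have e3 : bb * (4 * (T + y * (((a : ℝ) + 2) * (a + 3)))) =
        4 * (bb * (T + y * (((a : ℝ) + 2) * (a + 3)))) := by ring
    rw [e1]
    rw [e2] at h18
    rw [e3] at h17
    linarith

/-- the induction step -/
theorem dat_step {f : Polynomial ℝ} {a : ℕ} (hf : Dat a f)
    (hz : ∀ i, (Qs f a i).eval ((a + 1 + i : ℕ) : ℝ) = 0)
    (hlow : ∀ i, ((a + 2 + i : ℕ) : ℝ) * f.eval ((a + 1 + i : ℕ) : ℝ) ≤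
      2 * (Qs f a (i + 1)).eval ((a + 3 + i : ℕ) : ℝ)) (i : ℕ) :
    Dat (a + 2 + i) (Qs f a (i + 1)) := by
  obtain ⟨R, Rr, c1, e1, e2⟩ := R_cone hf.cone hz i
  set v := f.eval ((a + 1 + i : ℕ) : ℝ) with hv
  have hv0 : 0 < v := hf.pos _ (by omega)
  have hm : (((a + i : ℕ)) : ℝ) < ((a + 2 + i : ℕ) : ℝ) := by
    exact_mod_cast (by omega : a + i < a + 2 + i)
  have hm0 : (0 : ℝ) ≤ ((a + i : ℕ) : ℝ) := Nat.cast_nonneg _
  have hval : ∀ k : ℕ, a + 2 + i ≤ k → (Qs f a (i + 1)).eval (k : ℝ) =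
      (k.choose (a + 1 + i) : ℝ) * (v - Rr k) := by
    intro k hk
    have h1 := e2 (k : ℂ) (by
      rw [Complex.norm_natCast]
      exact_mod_cast (by omega : a + i < k))
    rw [aeval_nat, bn_nat] at h1
    have h2 := c1.real (k : ℝ)
    rw [Complex.ofReal_natCast] at h2
    rw [h2] at h1
    exact_mod_cast h1
  have hdec : ∀ r : ℝ, ((a + 2 + i : ℕ) : ℝ) < r → Rr r < v := by
    intro r hr
    have h1 := c1.decay hm hr.le
    rw [e1] at h1
    have hr0 : 0 < r := by linarith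
    have h2 : r * Rr r < r * v := by
      refine lt_of_le_of_lt h1 ?_
      exact mul_lt_mul_of_pos_right hr hv0
    exact lt_of_mul_lt_mul_left h2 hr0.le
  refine ⟨?_, ?_, ?_, ?_⟩
  · obtain ⟨G, Gr, c2, e3⟩ := c1.dd hm
    refine ⟨_, _, Cone.smul (((a + 2 + i : ℕ) : ℝ) * (((a + 2 + i : ℕ) : ℝ) + 1)) (by positivity)
      (Cone.mul (Cone.inv (a + 1 + i) (by omega)) (c2.mono (by omega))), ?_⟩
    intro x hx
    have hx' : (((a + i : ℕ)) : ℝ) < ‖x‖ := hm.trans hx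
    have h3 := e3 x hx'
    rw [e1] at h3
    rw [e2 x hx', h3, show a + 2 + i + 1 = (a + 1 + i + 1) + 1 by ring, bn_succ, bn_succ]
    have h8 : x - ((a + 1 + i : ℕ) : ℂ) ≠ 0 := by
      intro h
      rw [sub_eq_zero] at h
      rw [h, Complex.norm_natCast] at hx
      have : ((a + 1 + i : ℕ) : ℝ) < ((a + 2 + i : ℕ) : ℝ) := by
        exact_mod_cast (by omega : a + 1 + i < a + 2 + i)
      linarith
    have h9 : ((a + 1 + i : ℕ) : ℂ) + 1 ≠ 0 := by exact_mod_cast Nat.succ_ne_zero (a + 1 + i)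
    have h10 : ((a + 1 + i + 1 : ℕ) : ℂ) + 1 ≠ 0 := by
      exact_mod_cast Nat.succ_ne_zero (a + 1 + i + 1)
    push_cast at h8 h9 h10 ⊢
    have h11 : (a : ℂ) + 2 + i ≠ 0 := by
      have : (a : ℂ) + 2 + i = a + 1 + i + 1 := by ring
      rw [this]; exact h9
    have h12 : (a : ℂ) + 2 + i + 1 ≠ 0 := by
      have : (a : ℂ) + 2 + i + 1 = a + 1 + i + 1 + 1 := by ring
      rw [this]; exact h10
    rw [show (a : ℂ) + 1 + i + 1 = a + 2 + i by ring]
    field_simp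
  · intro k hk
    rw [hval k (by omega)]
    have h1 : Rr (k : ℝ) < v := hdec k (by exact_mod_cast (by omega : a + 2 + i < k))
    have h2 : (0 : ℝ) < (k.choose (a + 1 + i) : ℝ) := by
      exact_mod_cast Nat.choose_pos (by omega)
    exact mul_pos h2 (by linarith)
  · intro h
    omega
  · intro _
    refine ⟨by omega, ⟨fun k => v - Rr k, ?_, ?_, ?_⟩, ?_, ?_⟩
    · intro k hk
      rw [hval k hk, show a + 2 + i - 1 = a + 1 + i by omega]
    · intro k hk
      have h1 : Rr ((k + 1 : ℕ) : ℝ) ≤ Rr (k : ℝ) := by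
        refine c1.anti ?_ ?_
        · exact_mod_cast (by omega : a + i < k)
        · push_cast; linarith
      simp only
      linarith
    · have h1 : Rr ((a + 2 + i + 1 : ℕ) : ℝ) < v := hdec _ (by
        exact_mod_cast (by omega : a + 2 + i < a + 2 + i + 1))
      simp only
      linarith
    · intro w hw
      have h1 := upper hf i (hlow i) hw
      rw [show a + 3 + i = a + 2 + i + 1 by ring] at h1
      exact h1
    · intro x hx
      constructor
      · by_contra hcon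
        push Not at hcon
        have hx' : (((a + i : ℕ)) : ℝ) < ‖x‖ := hm.trans hcon
        rw [e2 x hx'] at hx
        have h1 : bn (a + 1 + i) x ≠ 0 := by
          apply bn_ne_zero
          push_cast at hx' ⊢
          linarith
        rcases mul_eq_zero.1 hx with h | h
        · exact h1 h
        · have h2 := c1.norm_le hx'
          have h3 := hdec ‖x‖ hcon
          rw [sub_eq_zero] at h
          rw [← h, Complex.norm_real, Real.norm_of_nonneg hv0.le] at h2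
          linarith
      · by_contra hcon
        push Not at hcon
        have h1 := no_zero hf i (w := -x) (by rw [Complex.neg_re]; linarith)
        rw [neg_neg] at h1
        exact h1 hx

end Pool.Agent.W243.Peak
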