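import Mathlib
import Pool.Agent.W243.PeakStep
import Pool.Agent.W243.PeakCount2

set_option autoImplicit false

/-!
# The peak polynomials and their zeros
-/

namespace Pool.Agent.W243.Peak

open Finset Polynomial

/-- `f` is the peak polynomial of `S` -/
def Good (S : Finset ℕ) (f : Polynomial ℝ) : Prop :=
  ∀ n : ℕ, S.sup id ≤ n → 1 ≤ n → (c S n : ℝ) * 2 ^ (S.card + 1) = f.eval (n : ℝ) * 2 ^ n

def Adm (S : Finset ℕ) : Prop := ∀ i ∈ S, 2 ≤ i ∧ i + 1 ∉ S

theorem sup_mem {S : Finset ℕ} (h : S.Nonempty) : S.sup id ∈ S := by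
  obtain ⟨x, hx, hx'⟩ := Finset.exists_mem_eq_sup S h id
  rw [hx']
  exact hx

theorem le_sup_id {S : Finset ℕ} {i : ℕ} (h : i ∈ S) : i ≤ S.sup id := Finset.le_sup (f := id) h

theorem Q_count {S : Finset ℕ} {f : Polynomial ℝ} (hS : Adm S) (hf : Good S f) (i : ℕ) :
    ∀ n : ℕ, S.sup id + 1 + i ≤ n →
      (c (insert (S.sup id + 1 + i) S) n : ℝ) * 2 ^ (S.card + 2) =
        (Qs f (S.sup id) i).eval (n : ℝ) * 2 ^ n := by
  induction i with
  | zero =>
    intro n hn
    rw [Qs_zero, eval_zero, zero_mul]
    have h0 : c (insert (S.sup id + 1 + 0) S) n = 0 := by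
      rcases S.eq_empty_or_nonempty with h | h
      · subst h
        apply c_one (by omega)
        simp
      · have h1 := sup_mem h
        have h2 := (hS _ h1).1
        exact c_adj (a := S.sup id) (by omega) (by omega)
          (Finset.mem_insert_of_mem h1) (Finset.mem_insert_self _ _)
    rw [h0]
    simp
  | succ i ih =>
    intro n hn
    set p := S.sup id + 1 + i with hp
    have h1 := c_rec (S := S) (p := p) (n := n)
      (fun j hj => ⟨(hS j hj).1, by have := le_sup_id hj; omega⟩) (by omega) (by omega)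
    have h2 := ih n (by omega)
    have h3 := hf n (by omega) (by omega)
    have h4 := hf p (by omega) (by omega)
    have h5 : ((c (insert (p + 1) S) n : ℝ) + c (insert p S) n + c S n) =
        c S p * 2 ^ (n - p - 1) * n.choose p := by exact_mod_cast h1
    rw [show S.sup id + 1 + (i + 1) = p + 1 by omega, Qs_succ, ← hp]
    rw [eval_sub, eval_sub, eval_mul, eval_C, eval_bnP, eval_mul, eval_ofNat]
    have h6 : (2 : ℝ) ^ n = 2 ^ p * 2 ^ (n - p - 1) * 2 := by
      rw [← pow_add, ← pow_succ]
      congr 1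
      omega
    have h7 : (2 : ℝ) ^ (S.card + 2) = 2 ^ (S.card + 1) * 2 := by rw [← pow_succ]
    have h8 : (c (insert (p + 1) S) n : ℝ) * 2 ^ (S.card + 2) =
        (c S p * 2 ^ (S.card + 1)) * 2 ^ (n - p - 1) * 2 * n.choose p -
          (c (insert p S) n : ℝ) * 2 ^ (S.card + 2) - 2 * (c S n * 2 ^ (S.card + 1)) := by
      rw [h7]
      linear_combination (2 ^ (S.card + 1) * 2) * h5
    rw [h8, h2, h3, h4]
    linear_combination (-(eval (p : ℝ) f) * (n.choose p : ℝ)) * h6

theorem exists_poly (S : Finset ℕ) : Adm S → ∃ f, Dat (S.sup id) f ∧ Good S f := by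
  induction S using Finset.induction_on_max with
  | empty =>
    intro _
    refine ⟨1, ?_, ?_⟩
    · simpa using dat_zero
    · intro n _ hn
      obtain ⟨q, rfl⟩ : ∃ q, n = q + 1 := ⟨n - 1, by omega⟩
      rw [e_eq]
      simp [pow_succ]
  | insert m S hmax ih =>
    intro hadm
    have hS : Adm S := by
      intro i hi
      have h := hadm i (Finset.mem_insert_of_mem hi)
      exact ⟨h.1, fun h' => h.2 (Finset.mem_insert_of_mem h')⟩
    obtain ⟨f, hf1, hf2⟩ := ih hS
    have hm : S.sup id + 2 ≤ m := by
      rcases S.eq_empty_or_nonempty with h | h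
      · subst h
        have := (hadm m (Finset.mem_insert_self _ _)).1
        simpa using this
      · have h1 := sup_mem h
        have h2 := hmax _ h1
        have h3 := (hadm _ (Finset.mem_insert_of_mem h1)).2
        have h4 : S.sup id + 1 ≠ m := by
          intro h4
          exact h3 (h4 ▸ Finset.mem_insert_self _ _)
        omega
    obtain ⟨i, rfl⟩ : ∃ i, m = S.sup id + 2 + i := ⟨m - (S.sup id + 2), by omega⟩
    have hsup : (insert (S.sup id + 2 + i) S).sup id = S.sup id + 2 + i := by
      rw [Finset.sup_insert]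
      simp only [id]
      exact sup_eq_left.2 (by
        show S.sup id ≤ _
        omega)
    have hcount := Q_count hS hf2
    have hz : ∀ i, (Qs f (S.sup id) i).eval ((S.sup id + 1 + i : ℕ) : ℝ) = 0 := by
      intro j
      have h1 := hcount j (S.sup id + 1 + j) le_rfl
      rw [c_self (by omega) (Finset.mem_insert_self _ _)] at h1
      simp only [Nat.cast_zero, zero_mul] at h1
      rcases mul_eq_zero.1 h1.symm with h | h
      · exact h
      · exact absurd h (by positivity)
    have hlow : ∀ i, ((S.sup id + 2 + i : ℕ) : ℝ) * f.eval ((S.sup id + 1 + i : ℕ) : ℝ) ≤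
        2 * (Qs f (S.sup id) (i + 1)).eval ((S.sup id + 3 + i : ℕ) : ℝ) := by
      intro j
      have h1 := hcount (j + 1) (S.sup id + 3 + j) (by omega)
      have h2 := hf2 (S.sup id + 1 + j) (by omega) (by omega)
      have h3 := c_lower (S := S) (p := S.sup id + 1 + j)
        (fun k hk => ⟨(hS k hk).1, by have := le_sup_id hk; omega⟩) (by omega)
      have h4 : (((S.sup id + 1 + j + 1 : ℕ) : ℝ)) * c S (S.sup id + 1 + j) ≤
          c (insert (S.sup id + 1 + j + 1) S) (S.sup id + 1 + j + 2) := by exact_mod_cast h3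
      rw [show S.sup id + 1 + j + 1 = S.sup id + 2 + j by ring,
        show S.sup id + 1 + j + 2 = S.sup id + 3 + j by ring] at h4
      rw [show S.sup id + 1 + (j + 1) = S.sup id + 2 + j by ring] at h1
      have h7 : (2 : ℝ) ^ (S.card + 2) = 2 ^ (S.card + 1) * 2 := by rw [← pow_succ]
      have h8 : (2 : ℝ) ^ (S.sup id + 3 + j) = 2 ^ (S.sup id + 1 + j) * 2 * 2 := by
        rw [← pow_succ, ← pow_succ]
        congr 1
        ring
      have hP : (0 : ℝ) < 2 ^ (S.sup id + 1 + j) := by positivity
      have hC : (0 : ℝ) < 2 ^ (S.card + 1) := by positivity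
      rw [h7, h8] at h1
      set P : ℝ := 2 ^ (S.sup id + 1 + j)
      set K : ℝ := 2 ^ (S.card + 1)
      set x := f.eval ((S.sup id + 1 + j : ℕ) : ℝ)
      set y := (Qs f (S.sup id) (j + 1)).eval ((S.sup id + 3 + j : ℕ) : ℝ)
      set u : ℝ := ((S.sup id + 2 + j : ℕ) : ℝ)
      have h9 : (u * x) * P ≤ (2 * y) * P := by
        have e1 : (u * x) * P = (u * c S (S.sup id + 1 + j)) * K := by
          linear_combination (-u) * h2
        have e2 : (2 * y) * P = (c (insert (S.sup id + 2 + j) S) (S.sup id + 3 + j) : ℝ) * K := by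
          linear_combination (-1 / 2 : ℝ) * h1
        rw [e1, e2]
        exact mul_le_mul_of_nonneg_right h4 hC.le
      exact le_of_mul_le_mul_right h9 hP
    refine ⟨Qs f (S.sup id) (i + 1), ?_, ?_⟩
    · rw [hsup]
      exact dat_step hf1 hz hlow i
    · intro n hn _
      rw [hsup] at hn
      have hnot : S.sup id + 2 + i ∉ S := by
        intro h
        have := le_sup_id h
        omega
      rw [Finset.card_insert_of_notMem hnot]
      have h1 := hcount (i + 1) n (by omega)
      rw [show S.sup id + 1 + (i + 1) = S.sup id + 2 + i by ring] at h1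
      exact h1

end Pool.Agent.W243.Peak
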