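import Pool.Agent.W243.LangI

set_option autoImplicit false

open Finset

namespace Pool.Agent.W243.LangJ

open Pool.Agent.W243.LangI

/-- The seven positive integers at the parameter `t`, as integers. -/
def aZ (t : ℤ) : Fin 7 → ℤ :=
  ![t - 38872, t + 38872, t - 19436, t + 19436, t^2 - 1629081789, t^2 - 931217632, t^2 - 70202832]

/-- The seven positive integers at the parameter `t`. -/
def a (t : ℕ) : Fin 7 → ℕ := fun j => (aZ (t:ℤ) j).toNat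

/-- The seven integer exponents at the parameter `t`. -/
def b (t : ℕ) : Fin 7 → ℤ :=
  ![38238472544154446025 * (t:ℤ) + (-1312452509246330543921760),
    (-38238472544154446025) * (t:ℤ) + (-1312452509246330543921760),
    (-76476945088308892050) * (t:ℤ) + 1566947434485413069844700,
    76476945088308892050 * (t:ℤ) + 1566947434485413069844700,
    -52925818274577005936640, 428097919465366056824672, -629667026429871576810972]

theorem tsq (t : ℕ) (ht : 10^10 ≤ t) : 10^20 ≤ t^2 := by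
  calc 10^20 = (10^10)^2 := by norm_num
    _ ≤ t^2 := Nat.pow_le_pow_left ht 2

theorem tsqZ (t : ℕ) (ht : 10^10 ≤ t) : (10:ℤ)^20 ≤ (t:ℤ)^2 := by
  exact_mod_cast tsq t ht

theorem aZ_pos (t : ℕ) (ht : 10^10 ≤ t) (j : Fin 7) : 0 < aZ t j := by
  have h := tsqZ t ht
  have h2 : (10:ℤ)^10 ≤ (t:ℤ) := by exact_mod_cast ht
  fin_cases j <;> simp [aZ] <;> linarith

theorem a_pos (t : ℕ) (ht : 10^10 ≤ t) (j : Fin 7) : 0 < a t j := by
  have h := aZ_pos t ht j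
  unfold a
  omega

theorem a_cast (t : ℕ) (ht : 10^10 ≤ t) (j : Fin 7) : ((a t j : ℕ) : ℝ) = ((aZ t j : ℤ) : ℝ) := by
  have h := aZ_pos t ht j
  have h2 : ((a t j : ℕ) : ℤ) = aZ t j := by
    unfold a
    omega
  exact_mod_cast congrArg (Int.cast : ℤ → ℝ) h2

theorem b_ne (t : ℕ) (ht : 10^10 ≤ t) (j : Fin 7) : b t j ≠ 0 := by
  have h : (10:ℤ)^10 ≤ (t:ℤ) := by exact_mod_cast ht
  fin_cases j <;> simp [b] <;> omega

theorem sum_eq (t : ℕ) (ht : 10^10 ≤ t) :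
    ∑ j, ((b t j : ℤ) : ℝ) * Real.log ((a t j : ℕ) : ℝ) = F t := by
  simp only [a_cast t ht]
  unfold F
  simp only [Fin.sum_univ_succ, Fin.sum_univ_zero]
  simp [aZ, b, Fin.succ]
  ring

theorem prod_eq (t : ℕ) (ht : 10^10 ≤ t) :
    ∏ j, ((a t j : ℕ) : ℝ) ^ (b t j) = Real.exp (F t) := by
  rw [← sum_eq t ht, Real.exp_sum]
  refine Finset.prod_congr rfl fun j _ => ?_
  have h : (0:ℝ) < ((a t j : ℕ) : ℝ) := by exact_mod_cast a_pos t ht j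
  rw [← Real.rpow_intCast, Real.rpow_def_of_pos h, mul_comm]

theorem prodA_le (t : ℕ) (ht : 10^10 ≤ t) :
    ∏ j, ((a t j : ℕ) : ℝ) ≤ 16 * (t:ℝ)^10 := by
  have h : (10:ℝ)^10 ≤ (t:ℝ) := by exact_mod_cast ht
  have hp : ∀ j, (0:ℝ) < ((aZ t j : ℤ) : ℝ) := fun j => by exact_mod_cast aZ_pos t ht j
  simp only [a_cast t ht]
  have h0 : ((aZ t 0 : ℤ) : ℝ) ≤ 2 * t := by simp [aZ]; linarith
  have h1 : ((aZ t 1 : ℤ) : ℝ) ≤ 2 * t := by simp [aZ]; linarith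
  have h2 : ((aZ t 2 : ℤ) : ℝ) ≤ 2 * t := by simp [aZ]; linarith
  have h3 : ((aZ t 3 : ℤ) : ℝ) ≤ 2 * t := by simp [aZ]; linarith
  have h4 : ((aZ t 4 : ℤ) : ℝ) ≤ (t:ℝ)^2 := by simp [aZ]
  have h5 : ((aZ t 5 : ℤ) : ℝ) ≤ (t:ℝ)^2 := by simp [aZ]
  have h6 : ((aZ t 6 : ℤ) : ℝ) ≤ (t:ℝ)^2 := by simp [aZ]
  have p0 := (hp 0).le
  have p1 := (hp 1).le
  have p2 := (hp 2).le
  have p3 := (hp 3).le
  have p4 := (hp 4).le
  have p5 := (hp 5).le
  have p6 := (hp 6).le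
  rw [Fin.prod_univ_seven]
  calc _ ≤ (2 * (t:ℝ)) * (2 * (t:ℝ)) * (2 * (t:ℝ)) * (2 * (t:ℝ)) * (t:ℝ)^2 * (t:ℝ)^2 * (t:ℝ)^2 := by
        gcongr
    _ = 16 * (t:ℝ)^10 := by ring

theorem absb (t : ℕ) (ht : 10^10 ≤ t) (j : Fin 7) (hj : (j:ℕ) < 4) :
    |((b t j : ℤ) : ℝ)| ≤ 10^21 * (t:ℝ) := by
  have h : (10:ℝ)^10 ≤ (t:ℝ) := by exact_mod_cast ht
  rw [abs_le]
  fin_cases j <;> simp at hj <;> simp [b] <;> constructor <;> linarith

theorem absb2 (t : ℕ) (j : Fin 7) (hj : 4 ≤ (j:ℕ)) :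
    |((b t j : ℤ) : ℝ)| ≤ 10^25 := by
  rw [abs_le]
  fin_cases j <;> simp at hj <;> simp [b] <;> constructor <;> norm_num

theorem prodB_le (t : ℕ) (ht : 10^10 ≤ t) :
    ∏ j, |((b t j : ℤ) : ℝ)| ≤ 10^159 * (t:ℝ)^4 := by
  have h0 := absb t ht 0 (by decide)
  have h1 := absb t ht 1 (by decide)
  have h2 := absb t ht 2 (by decide)
  have h3 := absb t ht 3 (by decide)
  have h4 := absb2 t 4 (by decide)
  have h5 := absb2 t 5 (by decide)
  have h6 := absb2 t 6 (by decide)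
  rw [Fin.prod_univ_seven]
  calc _ ≤ (10^21 * (t:ℝ)) * (10^21 * (t:ℝ)) * (10^21 * (t:ℝ)) * (10^21 * (t:ℝ)) * 10^25 * 10^25 * 10^25 := by
        gcongr
    _ = 10^159 * (t:ℝ)^4 := by ring

theorem sup_ge (t : ℕ) (ht : 10^10 ≤ t) :
    (t:ℝ) ≤ ((Finset.univ.sup fun j => (b t j).natAbs : ℕ) : ℝ) := by
  have h1 : (b t 0).natAbs ≤ (Finset.univ.sup fun j => (b t j).natAbs) :=
    Finset.le_sup (f := fun j => (b t j).natAbs) (Finset.mem_univ 0)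
  have h3 : (10:ℤ)^10 ≤ (t:ℤ) := by exact_mod_cast ht
  have h2 : t ≤ (b t 0).natAbs := by
    have h5 : (t:ℤ) ≤ b t 0 := by
      simp [b]
      linarith
    omega
  exact_mod_cast le_trans h2 h1

theorem core (C : ℝ) (hC : 0 < C) : ∃ t : ℕ, 10^10 ≤ t ∧
    (∏ j, ((a t j : ℕ) : ℝ) ^ (b t j)) ≠ 1 ∧
    |(∏ j, ((a t j : ℕ) : ℝ) ^ (b t j)) - 1| <
      C * ((Finset.univ.sup fun j => (b t j).natAbs : ℕ) : ℝ) /
        ((∏ j, |((b t j : ℤ) : ℝ)|) * (∏ j, ((a t j : ℕ) : ℝ))) ^ ((1:ℝ) + 1/28) := by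
  obtain ⟨N, hN⟩ := exists_nat_gt (2 * (10:ℝ)^85 * (10^161)^2 / C)
  obtain ⟨τ, hτN, hτ7⟩ : ∃ τ : ℕ, N ≤ τ ∧ 10^7 ≤ τ := ⟨max N (10^7), le_max_left _ _, le_max_right _ _⟩
  obtain ⟨t, ht⟩ : ∃ t : ℕ, t = τ^2 := ⟨_, rfl⟩
  have ht10 : 10^10 ≤ t := by
    rw [ht]
    calc 10^10 ≤ (10^7)^2 := by norm_num
      _ ≤ τ^2 := Nat.pow_le_pow_left hτ7 2
  have ht10' : (10:ℝ)^10 ≤ (t:ℝ) := by exact_mod_cast ht10
  have hF := F_pos (t:ℝ) ht10'
  refine ⟨t, ht10, ?_, ?_⟩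
  · rw [prod_eq t ht10]
    intro h
    rw [Real.exp_eq_one_iff] at h
    exact hF.1.ne' h
  have ht0 : (0:ℝ) < (t:ℝ) := lt_of_lt_of_le (by norm_num) ht10'
  have hF1 : F t ≤ 1 := by
    refine hF.2.trans ?_
    rw [div_le_one (by positivity)]
    calc (10:ℝ)^85 ≤ (10^10)^14 := by norm_num
      _ ≤ (t:ℝ)^14 := by gcongr
  have hexp : |Real.exp (F t) - 1| ≤ 2 * (10^85 / (t:ℝ)^14) := by
    have h1 : |F t| ≤ 1 := by rw [abs_of_pos hF.1]; exact hF1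
    have h2 := Real.abs_exp_sub_one_le h1
    rw [abs_of_pos hF.1] at h2
    linarith [hF.2]
  rw [prod_eq t ht10]
  refine lt_of_le_of_lt hexp ?_
  have hPB := prodB_le t ht10
  have hPA := prodA_le t ht10
  have hS := sup_ge t ht10
  have hPB1 : (0:ℝ) < ∏ j, |((b t j : ℤ) : ℝ)| := by
    apply Finset.prod_pos
    intro j _
    have := b_ne t ht10 j
    positivity
  have hPA1 : (0:ℝ) < ∏ j, ((a t j : ℕ) : ℝ) := by
    apply Finset.prod_pos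
    intro j _
    exact_mod_cast a_pos t ht10 j
  generalize (∏ j, |((b t j : ℤ) : ℝ)|) = PB at *
  generalize (∏ j, ((a t j : ℕ) : ℝ)) = PA at *
  generalize ((Finset.univ.sup fun j => (b t j).natAbs : ℕ) : ℝ) = SB at *
  have hτ0 : (0:ℝ) < (τ:ℝ) := by
    have : 0 < τ := by
      have : (0:ℕ) < 10^7 := by norm_num
      omega
    exact_mod_cast this
  have htτ : (t:ℝ) = (τ:ℝ)^2 := by rw [ht]; push_cast; rfl
  have hX : PB * PA ≤ 10^161 * (τ:ℝ)^28 := by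
    calc PB * PA ≤ (10^159 * (t:ℝ)^4) * (16 * (t:ℝ)^10) := by
          apply mul_le_mul hPB hPA hPA1.le (by positivity)
      _ = (10^159 * 16) * (τ:ℝ)^28 := by rw [htτ]; ring
      _ ≤ 10^161 * (τ:ℝ)^28 := by
          gcongr
          norm_num
  have hX0 : 0 < PB * PA := by positivity
  have hXp : (PB * PA) ^ ((1:ℝ) + 1/28) ≤ (10^161)^2 * (τ:ℝ)^29 := by
    calc (PB * PA) ^ ((1:ℝ) + 1/28) ≤ (10^161 * (τ:ℝ)^28) ^ ((1:ℝ) + 1/28) :=
          Real.rpow_le_rpow hX0.le hX (by norm_num)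
      _ = ((10:ℝ)^161) ^ ((1:ℝ) + 1/28) * ((τ:ℝ)^28) ^ ((1:ℝ) + 1/28) :=
          Real.mul_rpow (by positivity) (by positivity)
      _ ≤ (10^161)^2 * (τ:ℝ)^29 := by
          apply mul_le_mul
          · calc ((10:ℝ)^161) ^ ((1:ℝ) + 1/28) ≤ ((10:ℝ)^161) ^ (2:ℝ) :=
                Real.rpow_le_rpow_of_exponent_le (one_le_pow₀ (by norm_num)) (by norm_num)
              _ = (10^161)^2 := by
                rw [← Real.rpow_natCast ((10:ℝ)^161) 2]; norm_num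
          · apply le_of_eq
            rw [← Real.rpow_natCast (τ:ℝ) 28, ← Real.rpow_mul hτ0.le, ← Real.rpow_natCast (τ:ℝ) 29]
            norm_num
          · positivity
          · positivity
  have hXpos : 0 < (PB * PA) ^ ((1:ℝ) + 1/28) := Real.rpow_pos_of_pos hX0 _
  have h2 : C * (t:ℝ) / ((10^161)^2 * (τ:ℝ)^29) ≤ C * SB / (PB * PA) ^ ((1:ℝ) + 1/28) := by
    apply div_le_div₀
    · have : 0 ≤ SB := le_trans (by positivity) hS
      positivity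
    · exact mul_le_mul_of_nonneg_left hS (by positivity)
    · exact hXpos
    · exact hXp
  refine lt_of_lt_of_le ?_ h2
  rw [htτ, ← mul_div_assoc, div_lt_div_iff₀ (by positivity) (by positivity)]
  have h7 : 2 * (10:ℝ)^85 * (10^161)^2 / C < (τ:ℝ) := lt_of_lt_of_le hN (by exact_mod_cast hτN)
  rw [div_lt_iff₀ (by positivity)] at h7
  calc 2 * 10^85 * ((10^161)^2 * (τ:ℝ)^29) = (2 * (10:ℝ)^85 * (10^161)^2) * (τ:ℝ)^29 := by ring
    _ < ((τ:ℝ) * C) * (τ:ℝ)^29 := by gcongr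
    _ = C * (τ:ℝ)^2 * ((τ:ℝ)^2)^14 := by ring

end Pool.Agent.W243.LangJ
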