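import Pool.Agent.W243.LangB

set_option autoImplicit false

open Finset

namespace Pool.Agent.W243.LangC

open Pool.Agent.W243.LangA Pool.Agent.W243.LangB

/-- The six shifts. -/
def s : Fin 6 → ℕ := ![3570, 1785, 1428, 2975, 3825, 1575]

/-- The six integer coefficients at the parameter `t`. -/
def b (t : ℕ) : Fin 6 → ℤ :=
  ![(-1849389243942240000) * (t:ℤ)^2 + 20640457879059327504000000,
    3698778487884480000 * (t:ℤ)^2 + (-29119856799327448263484375),
    2185804085937500000000000, -9501355170808122859374690,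
    276136539856285700157566, 14868550261801226586448649]

/-- The six positive rationals at the parameter `t`. -/
def a (t : ℕ) : Fin 6 → ℚ := fun j => ((t:ℚ) + (s j : ℕ)) / ((t:ℚ) - (s j : ℕ))

theorem s_le (j : Fin 6) : s j ≤ 3825 := by
  fin_cases j <;> simp [s]

theorem a_pos (t : ℕ) (ht : 10^13 ≤ t) (j : Fin 6) : 0 < a t j := by
  unfold a
  have h1 := s_le j
  have h2 : ((s j : ℕ) : ℚ) ≤ 3825 := by exact_mod_cast h1
  have h3 : (10:ℚ)^13 ≤ (t:ℚ) := by exact_mod_cast ht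
  apply div_pos
  · have : (0:ℚ) ≤ ((s j : ℕ) : ℚ) := by positivity
    linarith
  · linarith

theorem sum_eq (t : ℕ) : ∑ j, ((b t j : ℤ) : ℝ) * Real.log ((a t j : ℚ) : ℝ) = F t := by
  unfold F
  simp only [Fin.sum_univ_succ, Fin.sum_univ_zero]
  simp [a, b, s, Fin.succ]
  ring

theorem A_le (t : ℕ) (ht : 10^13 ≤ t) (j : Fin 6) :
    max (a t j).num.natAbs (a t j).den ≤ 2 * t := by
  have h1 := s_le j
  have h2 := height_le t (s j) (by omega)
  unfold a
  omega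

theorem prodA_le (t : ℕ) (ht : 10^13 ≤ t) :
    ∏ j, (((max (a t j).num.natAbs (a t j).den : ℕ)) : ℝ) ^ 2 ≤ 4096 * (t:ℝ)^12 := by
  calc ∏ j, (((max (a t j).num.natAbs (a t j).den : ℕ)) : ℝ) ^ 2
      ≤ ∏ j : Fin 6, (2 * (t:ℝ))^2 := by
        apply Finset.prod_le_prod
        · intro j _; positivity
        · intro j _
          have h : (((max (a t j).num.natAbs (a t j).den : ℕ)) : ℝ) ≤ 2 * (t:ℝ) := by
            exact_mod_cast A_le t ht j
          gcongr
    _ = 4096 * (t:ℝ)^12 := by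
        simp only [Finset.prod_const, Finset.card_univ, Fintype.card_fin]
        ring

theorem natAbs_le_of (z : ℤ) (M : ℕ) (h1 : z ≤ M) (h2 : -(M:ℤ) ≤ z) : z.natAbs ≤ M := by
  omega

theorem B_le0 (t : ℕ) (ht : 10^13 ≤ t) (j : Fin 6) (hj : j = 0 ∨ j = 1) :
    max (b t j).natAbs 1 ≤ 10^26 * t^2 := by
  have h3 : (10:ℤ)^26 ≤ (t:ℤ)^2 := by
    have : (10:ℤ)^13 ≤ (t:ℤ) := by exact_mod_cast ht
    calc (10:ℤ)^26 = (10^13)^2 := by norm_num
      _ ≤ (t:ℤ)^2 := by gcongr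
  have h4 : 1 ≤ 10^26 * t^2 := by
    have : 10^13 ≤ t := ht
    have : 0 < t := by omega
    have : 0 < 10^26 * t^2 := by positivity
    omega
  apply max_le _ h4
  apply natAbs_le_of
  · rcases hj with rfl | rfl
    · simp [b]; nlinarith
    · simp [b]; nlinarith
  · rcases hj with rfl | rfl
    · simp [b]; nlinarith
    · simp [b]; nlinarith

theorem B_le1 (t : ℕ) (j : Fin 6) (hj : 2 ≤ (j:ℕ)) :
    max (b t j).natAbs 1 ≤ 10^26 := by
  fin_cases j <;> simp at hj <;> simp [b]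

theorem prodB_le (t : ℕ) (ht : 10^13 ≤ t) :
    ∏ j, (((max (b t j).natAbs 1 : ℕ)) : ℝ) ≤ 10^156 * (t:ℝ)^4 := by
  have h0 : (((max (b t 0).natAbs 1 : ℕ)) : ℝ) ≤ 10^26 * (t:ℝ)^2 := by
    exact_mod_cast B_le0 t ht 0 (Or.inl rfl)
  have h1 : (((max (b t 1).natAbs 1 : ℕ)) : ℝ) ≤ 10^26 * (t:ℝ)^2 := by
    exact_mod_cast B_le0 t ht 1 (Or.inr rfl)
  have h2 : (((max (b t 2).natAbs 1 : ℕ)) : ℝ) ≤ 10^26 := by
    exact_mod_cast B_le1 t 2 (by decide)
  have h3 : (((max (b t 3).natAbs 1 : ℕ)) : ℝ) ≤ 10^26 := by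
    exact_mod_cast B_le1 t 3 (by decide)
  have h4 : (((max (b t 4).natAbs 1 : ℕ)) : ℝ) ≤ 10^26 := by
    exact_mod_cast B_le1 t 4 (by decide)
  have h5 : (((max (b t 5).natAbs 1 : ℕ)) : ℝ) ≤ 10^26 := by
    exact_mod_cast B_le1 t 5 (by decide)
  rw [Fin.prod_univ_six]
  calc _ ≤ (10^26 * (t:ℝ)^2) * (10^26 * (t:ℝ)^2) * 10^26 * 10^26 * 10^26 * 10^26 := by
        gcongr
    _ = 10^156 * (t:ℝ)^4 := by ring

theorem sup_ge (t : ℕ) (ht : 10^13 ≤ t) :
    (t:ℝ)^2 ≤ (((Finset.univ.sup fun j => max (b t j).natAbs 1) : ℕ) : ℝ) := by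
  have h1 : max (b t 0).natAbs 1 ≤ (Finset.univ.sup fun j => max (b t j).natAbs 1) :=
    Finset.le_sup (f := fun j => max (b t j).natAbs 1) (Finset.mem_univ 0)
  have h3 : (10:ℤ)^26 ≤ (t:ℤ)^2 := by
    have : (10:ℤ)^13 ≤ (t:ℤ) := by exact_mod_cast ht
    calc (10:ℤ)^26 = (10^13)^2 := by norm_num
      _ ≤ (t:ℤ)^2 := by gcongr
  have h2 : t^2 ≤ (b t 0).natAbs := by
    have h5 : b t 0 ≤ -((t^2 : ℕ) : ℤ) := by
      simp [b]
      nlinarith
    omega
  have h6 : t^2 ≤ (Finset.univ.sup fun j => max (b t j).natAbs 1) := by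
    exact le_trans (le_trans h2 (le_max_left _ _)) h1
  exact_mod_cast h6

theorem F_pos (t : ℝ) (ht : 10^13 ≤ t) : 0 < F t ∧ F t ≤ 10^75 / t^15 := by
  have ht0 : 0 < t := lt_of_lt_of_le (by norm_num) ht
  have ht2 : (10:ℝ)^26 ≤ t^2 := by
    calc (10:ℝ)^26 = (10^13)^2 := by norm_num
      _ ≤ t^2 := by gcongr
  have h := F_est t ht
  have h2 : (10:ℝ)^97 / t^17 ≤ 10^71 / t^15 := by
    rw [div_le_div_iff₀ (by positivity) (by positivity)]
    have : (10:ℝ)^71 * t^17 = (10^71 * t^2) * t^15 := by ring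
    rw [this]
    gcongr
    linarith
  rw [abs_le] at h
  constructor
  · have h3 : (10:ℝ)^71 / t^15 < 84035368741722766920985602799103423427354054191389102326600000000000000000 / t^15 := by
      gcongr
      norm_num
    linarith [h.1]
  · have h3 : (84035368741722766920985602799103423427354054191389102326600000000000000000:ℝ) / t^15 + 10^71 / t^15 ≤ 10^75 / t^15 := by
      rw [← add_div]
      gcongr
      norm_num
    linarith [h.2]

end Pool.Agent.W243.LangC
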