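import Mathlib

set_option autoImplicit false

open Finset

namespace Pool.Agent.W243.LangA

/-- Truncated odd series for the logarithm of `(1+x)/(1-x)`. -/
theorem ell_bound (x : ℝ) (h0 : 0 < x) (h1 : x ≤ 1/2) :
    |Real.log (1+x) - Real.log (1-x)
      - 2 * (x + x^3/3 + x^5/5 + x^7/7 + x^9/9 + x^11/11 + x^13/13 + x^15/15 + x^17/17)|
      ≤ 4 * x^19 := by
  have hx1 : |x| < 1 := by rw [abs_of_pos h0]; linarith
  have hx2 : |(-x)| < 1 := by rw [abs_neg]; exact hx1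
  have e1 := Real.abs_log_sub_add_sum_range_le hx1 18
  have e2 := Real.abs_log_sub_add_sum_range_le hx2 18
  rw [abs_neg] at e2
  rw [abs_of_pos h0] at e1 e2
  have e3 : x ^ (18+1) / (1 - x) ≤ 2 * x^19 := by
    rw [div_le_iff₀ (by linarith)]
    have h3 : 0 < x^19 := by positivity
    have h4 : x ^ (18+1) = x^19 := by norm_num
    rw [h4]
    nlinarith [mul_nonneg h3.le (by linarith : (0:ℝ) ≤ 1/2 - x)]
  simp only [Finset.sum_range_succ, Finset.sum_range_zero] at e1 e2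
  rw [sub_neg_eq_add] at e2
  rw [abs_le] at e1 e2 ⊢
  push_cast at e1 e2
  norm_num at e1 e2
  norm_num at e3
  constructor
  · linarith [e1.1, e1.2, e2.1, e2.2]
  · linarith [e1.1, e1.2, e2.1, e2.2]

theorem log_quot (t s : ℝ) (hs : 0 < s) (ht : 2 * s ≤ t) :
    |Real.log ((t+s)/(t-s))
      - 2 * ((s/t) + (s/t)^3/3 + (s/t)^5/5 + (s/t)^7/7 + (s/t)^9/9 + (s/t)^11/11
        + (s/t)^13/13 + (s/t)^15/15 + (s/t)^17/17)|
      ≤ 4 * (s/t)^19 := by
  have ht0 : 0 < t := by linarith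
  have hx : s / t ≤ 1/2 := by
    rw [div_le_iff₀ ht0]; linarith
  have e := ell_bound (s/t) (by positivity) hx
  have h1 : (t+s)/(t-s) = (1 + s/t) / (1 - s/t) := by
    have : t - s ≠ 0 := by linarith
    field_simp
  rw [h1, Real.log_div (by positivity) (by
    have : s/t < 1 := by linarith
    linarith)]
  exact e

/-- Height of `(t+s)/(t-s)`. -/
theorem height_le (t s : ℕ) (hs : s < t) :
    max (((t:ℚ) + s)/((t:ℚ) - s)).num.natAbs (((t:ℚ) + s)/((t:ℚ) - s)).den ≤ t + s := by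
  have h1 : ((t:ℚ) + s)/((t:ℚ) - s) = Rat.divInt ((t:ℤ) + s) ((t:ℤ) - s) := by
    rw [Rat.divInt_eq_div]; push_cast; rfl
  rw [h1]
  have h2 := Rat.num_dvd ((t:ℤ) + s) (b := (t:ℤ) - s) (by omega)
  have h3 := Rat.den_dvd ((t:ℤ) + s) ((t:ℤ) - s)
  have h4 : (Rat.divInt ((t:ℤ) + s) ((t:ℤ) - s)).num.natAbs ∣ ((t:ℤ) + s).natAbs :=
    Int.natAbs_dvd_natAbs.2 h2
  have h5 := Nat.le_of_dvd (by omega) h4
  have h6 := Int.le_of_dvd (by omega) h3
  apply max_le
  · omega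
  · omega

end Pool.Agent.W243.LangA
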