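import Pool.Agent.W243.LangA

set_option autoImplicit false

open Finset

namespace Pool.Agent.W243.LangB

open Pool.Agent.W243.LangA

theorem main_identity (t : ℝ) (ht : t ≠ 0) :
    ((-1849389243942240000) * t^2 + (20640457879059327504000000)) * (2 * ((3570/t) + (3570/t)^3/3 + (3570/t)^5/5 + (3570/t)^7/7 + (3570/t)^9/9 + (3570/t)^11/11 + (3570/t)^13/13 + (3570/t)^15/15 + (3570/t)^17/17))
    + ((3698778487884480000) * t^2 + (-29119856799327448263484375)) * (2 * ((1785/t) + (1785/t)^3/3 + (1785/t)^5/5 + (1785/t)^7/7 + (1785/t)^9/9 + (1785/t)^11/11 + (1785/t)^13/13 + (1785/t)^15/15 + (1785/t)^17/17))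
    + (2185804085937500000000000) * (2 * ((1428/t) + (1428/t)^3/3 + (1428/t)^5/5 + (1428/t)^7/7 + (1428/t)^9/9 + (1428/t)^11/11 + (1428/t)^13/13 + (1428/t)^15/15 + (1428/t)^17/17))
    + (-9501355170808122859374690) * (2 * ((2975/t) + (2975/t)^3/3 + (2975/t)^5/5 + (2975/t)^7/7 + (2975/t)^9/9 + (2975/t)^11/11 + (2975/t)^13/13 + (2975/t)^15/15 + (2975/t)^17/17))
    + (276136539856285700157566) * (2 * ((3825/t) + (3825/t)^3/3 + (3825/t)^5/5 + (3825/t)^7/7 + (3825/t)^9/9 + (3825/t)^11/11 + (3825/t)^13/13 + (3825/t)^15/15 + (3825/t)^17/17))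
    + (14868550261801226586448649) * (2 * ((1575/t) + (1575/t)^3/3 + (1575/t)^5/5 + (1575/t)^7/7 + (1575/t)^9/9 + (1575/t)^11/11 + (1575/t)^13/13 + (1575/t)^15/15 + (1575/t)^17/17))
    = 84035368741722766920985602799103423427354054191389102326600000000000000000 / t^15 + 6170367532558041234311618508192090490341266896316980019161844173117042968750000000000 / t^17 := by
  field_simp
  ring

/-- The value of the linear form at a real number `t`. -/
noncomputable def F (t : ℝ) : ℝ :=
  ((-1849389243942240000) * t^2 + (20640457879059327504000000)) * Real.log ((t+3570)/(t-3570))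
    + ((3698778487884480000) * t^2 + (-29119856799327448263484375)) * Real.log ((t+1785)/(t-1785))
    + (2185804085937500000000000) * Real.log ((t+1428)/(t-1428))
    + (-9501355170808122859374690) * Real.log ((t+2975)/(t-2975))
    + (276136539856285700157566) * Real.log ((t+3825)/(t-3825))
    + (14868550261801226586448649) * Real.log ((t+1575)/(t-1575))

theorem term_bound (c l p e K : ℝ) (h : |l - p| ≤ e) (hc : |c| ≤ K) (hK : 0 ≤ K) :
    |c * l - c * p| ≤ K * e := by
  rw [← mul_sub, abs_mul]
  exact mul_le_mul hc h (abs_nonneg _) hK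

theorem s_bound (t s : ℝ) (hs : 0 < s) (hs2 : s ≤ 4000) (ht : 0 < t) :
    4 * (s/t)^19 ≤ 4 * (4000/t)^19 := by
  gcongr

theorem F_est (t : ℝ) (ht : 10^13 ≤ t) :
    |F t - 84035368741722766920985602799103423427354054191389102326600000000000000000 / t^15| ≤ 10^97 / t^17 := by
  have ht0 : 0 < t := lt_of_lt_of_le (by norm_num) ht
  have ht2 : (10:ℝ)^26 ≤ t^2 := by
    calc (10:ℝ)^26 = (10^13)^2 := by norm_num
      _ ≤ t^2 := by gcongr
  have hid := main_identity t ht0.ne'
  have e0 := term_bound ((-1849389243942240000) * t^2 + (20640457879059327504000000)) _ _ (4 * (4000/t)^19) (10^26 * t^2) ((log_quot t 3570 (by norm_num) (by linarith)).trans (s_bound t 3570 (by norm_num) (by norm_num) ht0)) (by rw [abs_le]; constructor <;> nlinarith) (by positivity)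
  have e1 := term_bound ((3698778487884480000) * t^2 + (-29119856799327448263484375)) _ _ (4 * (4000/t)^19) (10^26 * t^2) ((log_quot t 1785 (by norm_num) (by linarith)).trans (s_bound t 1785 (by norm_num) (by norm_num) ht0)) (by rw [abs_le]; constructor <;> nlinarith) (by positivity)
  have e2 := term_bound (2185804085937500000000000) _ _ (4 * (4000/t)^19) (10^26 * t^2) ((log_quot t 1428 (by norm_num) (by linarith)).trans (s_bound t 1428 (by norm_num) (by norm_num) ht0)) (by rw [abs_le]; constructor <;> nlinarith) (by positivity)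
  have e3 := term_bound (-9501355170808122859374690) _ _ (4 * (4000/t)^19) (10^26 * t^2) ((log_quot t 2975 (by norm_num) (by linarith)).trans (s_bound t 2975 (by norm_num) (by norm_num) ht0)) (by rw [abs_le]; constructor <;> nlinarith) (by positivity)
  have e4 := term_bound (276136539856285700157566) _ _ (4 * (4000/t)^19) (10^26 * t^2) ((log_quot t 3825 (by norm_num) (by linarith)).trans (s_bound t 3825 (by norm_num) (by norm_num) ht0)) (by rw [abs_le]; constructor <;> nlinarith) (by positivity)
  have e5 := term_bound (14868550261801226586448649) _ _ (4 * (4000/t)^19) (10^26 * t^2) ((log_quot t 1575 (by norm_num) (by linarith)).trans (s_bound t 1575 (by norm_num) (by norm_num) ht0)) (by rw [abs_le]; constructor <;> nlinarith) (by positivity)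
  have h17 : 10^26 * t^2 * (4 * (4000/t)^19) = (4 * 10^26 * 4000^19) / t^17 := by
    field_simp
  rw [h17] at e0 e1 e2 e3 e4 e5
  have hc : |(6170367532558041234311618508192090490341266896316980019161844173117042968750000000000 : ℝ) / t^17| ≤ 10^85 / t^17 := by
    rw [abs_of_pos (by positivity)]
    gcongr
    norm_num
  have hfin : 6 * ((4 * 10^26 * 4000^19) / t^17) + 10^85 / t^17 ≤ 10^97 / t^17 := by
    rw [← mul_div_assoc, ← add_div]
    gcongr
    norm_num
  unfold F
  rw [abs_le] at *
  constructor
  · linarith [e0.1, e1.1, e2.1, e3.1, e4.1, e5.1, hc.1]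
  · linarith [e0.2, e1.2, e2.2, e3.2, e4.2, e5.2, hc.2]

end Pool.Agent.W243.LangB
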