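import Mathlib

set_option autoImplicit false

open Finset

namespace Pool.Agent.W243.LangI

/-- Truncated odd series. -/
theorem odd_bound (x : ℝ) (h0 : 0 < x) (h1 : x ≤ 1/2) :
    |Real.log (1+x) - Real.log (1-x)
      - 2 * (x + x^3/3 + x^5/5 + x^7/7 + x^9/9 + x^11/11 + x^13/13 + x^15/15)|
      ≤ 4 * x^17 := by
  have hx1 : |x| < 1 := by rw [abs_of_pos h0]; linarith
  have hx2 : |(-x)| < 1 := by rw [abs_neg]; exact hx1
  have e1 := Real.abs_log_sub_add_sum_range_le hx1 16
  have e2 := Real.abs_log_sub_add_sum_range_le hx2 16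
  rw [abs_neg] at e2
  rw [abs_of_pos h0] at e1 e2
  have e3 : x ^ (16+1) / (1 - x) ≤ 2 * x^17 := by
    rw [div_le_iff₀ (by linarith)]
    have h3 : 0 < x^17 := by positivity
    have h4 : x ^ (16+1) = x^17 := by norm_num
    rw [h4]
    nlinarith [mul_nonneg h3.le (by linarith : (0:ℝ) ≤ 1/2 - x)]
  simp only [Finset.sum_range_succ, Finset.sum_range_zero] at e1 e2
  rw [sub_neg_eq_add] at e2
  rw [abs_le] at e1 e2 ⊢
  push_cast at e1 e2
  norm_num at e1 e2
  norm_num at e3
  constructor
  · linarith [e1.1, e1.2, e2.1, e2.2]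
  · linarith [e1.1, e1.2, e2.1, e2.2]

theorem even_bound (y : ℝ) (h0 : 0 < y) (h1 : y ≤ 1/2) :
    |Real.log (1-y) - (-(y + y^2/2 + y^3/3 + y^4/4 + y^5/5 + y^6/6 + y^7/7))|
      ≤ 2 * y^8 := by
  have hx1 : |y| < 1 := by rw [abs_of_pos h0]; linarith
  have e1 := Real.abs_log_sub_add_sum_range_le hx1 7
  rw [abs_of_pos h0] at e1
  have e3 : y ^ (7+1) / (1 - y) ≤ 2 * y^8 := by
    rw [div_le_iff₀ (by linarith)]
    have h3 : 0 < y^8 := by positivity
    have h4 : y ^ (7+1) = y^8 := by norm_num
    rw [h4]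
    nlinarith [mul_nonneg h3.le (by linarith : (0:ℝ) ≤ 1/2 - y)]
  simp only [Finset.sum_range_succ, Finset.sum_range_zero] at e1
  rw [abs_le] at e1 ⊢
  push_cast at e1
  norm_num at e1
  norm_num at e3
  constructor
  · linarith [e1.1, e1.2]
  · linarith [e1.1, e1.2]

theorem main_identity (t : ℝ) (ht : t ≠ 0) :
    (-38238472544154446025) * t * (2 * (38872/t + (38872/t)^3/3 + (38872/t)^5/5 + (38872/t)^7/7 + (38872/t)^9/9 + (38872/t)^11/11 + (38872/t)^13/13 + (38872/t)^15/15))
    + (76476945088308892050) * t * (2 * (19436/t + (19436/t)^3/3 + (19436/t)^5/5 + (19436/t)^7/7 + (19436/t)^9/9 + (19436/t)^11/11 + (19436/t)^13/13 + (19436/t)^15/15))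
    + (-1312452509246330543921760) * (-(1511032384/t^2 + (1511032384/t^2)^2/2 + (1511032384/t^2)^3/3 + (1511032384/t^2)^4/4 + (1511032384/t^2)^5/5 + (1511032384/t^2)^6/6 + (1511032384/t^2)^7/7))
    + (1566947434485413069844700) * (-(377758096/t^2 + (377758096/t^2)^2/2 + (377758096/t^2)^3/3 + (377758096/t^2)^4/4 + (377758096/t^2)^5/5 + (377758096/t^2)^6/6 + (377758096/t^2)^7/7))
    + (-52925818274577005936640) * (-(1629081789/t^2 + (1629081789/t^2)^2/2 + (1629081789/t^2)^3/3 + (1629081789/t^2)^4/4 + (1629081789/t^2)^5/5 + (1629081789/t^2)^6/6 + (1629081789/t^2)^7/7))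
    + (428097919465366056824672) * (-(931217632/t^2 + (931217632/t^2)^2/2 + (931217632/t^2)^3/3 + (931217632/t^2)^4/4 + (931217632/t^2)^5/5 + (931217632/t^2)^6/6 + (931217632/t^2)^7/7))
    + (-629667026429871576810972) * (-(70202832/t^2 + (70202832/t^2)^2/2 + (70202832/t^2)^3/3 + (70202832/t^2)^4/4 + (70202832/t^2)^5/5 + (70202832/t^2)^6/6 + (70202832/t^2)^7/7))
    = 730765762338583399157384131041175127970490246606680340787672329119152856639398215680 / t^14 := by
  field_simp
  ring

/-- The value of the linear form at a real number `t`. -/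
noncomputable def F (t : ℝ) : ℝ :=
  ((38238472544154446025) * t + (-1312452509246330543921760)) * Real.log (t - 38872)
    + ((-38238472544154446025) * t + (-1312452509246330543921760)) * Real.log (t + 38872)
    + ((-76476945088308892050) * t + (1566947434485413069844700)) * Real.log (t - 19436)
    + ((76476945088308892050) * t + (1566947434485413069844700)) * Real.log (t + 19436)
    + (-52925818274577005936640) * Real.log (t^2 - 1629081789)
    + (428097919465366056824672) * Real.log (t^2 - 931217632)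
    + (-629667026429871576810972) * Real.log (t^2 - 70202832)

theorem log_sub_eq (t s : ℝ) (ht : 0 < t) (hs : s < t) :
    Real.log (t - s) = Real.log t + Real.log (1 - s/t) := by
  have h : t - s = t * (1 - s/t) := by field_simp
  have h2 : 0 < 1 - s/t := by
    have : s / t < 1 := by rw [div_lt_one ht]; exact hs
    linarith
  rw [h, Real.log_mul ht.ne' h2.ne']

theorem log_add_eq (t s : ℝ) (ht : 0 < t) (hs : 0 < s) :
    Real.log (t + s) = Real.log t + Real.log (1 + s/t) := by
  have h : t + s = t * (1 + s/t) := by field_simp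
  have h2 : 0 < 1 + s/t := by positivity
  rw [h, Real.log_mul ht.ne' h2.ne']

theorem log_sq_sub_eq (t S : ℝ) (ht : 0 < t) (hs : S < t^2) :
    Real.log (t^2 - S) = 2 * Real.log t + Real.log (1 - S/t^2) := by
  have h := log_sub_eq (t^2) S (by positivity) hs
  rw [h, Real.log_pow]
  push_cast
  ring

theorem log_one_sub_sq (t s : ℝ) (ht : 0 < t) (hs : 0 < s) (hst : s < t) :
    Real.log (1 - s^2/t^2) = Real.log (1 - s/t) + Real.log (1 + s/t) := by
  have h2 : 0 < 1 - s/t := by
    have : s / t < 1 := by rw [div_lt_one ht]; exact hst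
    linarith
  have h3 : 0 < 1 + s/t := by positivity
  rw [← Real.log_mul h2.ne' h3.ne']
  congr 1
  field_simp
  ring

theorem F_eq (t : ℝ) (ht : 10^10 ≤ t) :
    F t = (-38238472544154446025) * t * (Real.log (1 + 38872/t) - Real.log (1 - 38872/t))
    + (76476945088308892050) * t * (Real.log (1 + 19436/t) - Real.log (1 - 19436/t))
    + (-1312452509246330543921760) * Real.log (1 - 1511032384/t^2)
    + (1566947434485413069844700) * Real.log (1 - 377758096/t^2)
    + (-52925818274577005936640) * Real.log (1 - 1629081789/t^2)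
    + (428097919465366056824672) * Real.log (1 - 931217632/t^2)
    + (-629667026429871576810972) * Real.log (1 - 70202832/t^2) := by
  have ht0 : 0 < t := lt_of_lt_of_le (by norm_num) ht
  have ht2 : (10:ℝ)^20 ≤ t^2 := by
    calc (10:ℝ)^20 = (10^10)^2 := by norm_num
      _ ≤ t^2 := by gcongr
  have h1 : (1511032384:ℝ) = 38872^2 := by norm_num
  have h2 : (377758096:ℝ) = 19436^2 := by norm_num
  rw [h1, h2, log_one_sub_sq t 38872 ht0 (by norm_num) (by linarith),
    log_one_sub_sq t 19436 ht0 (by norm_num) (by linarith)]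
  unfold F
  rw [log_sub_eq t 38872 ht0 (by linarith), log_add_eq t 38872 ht0 (by norm_num),
    log_sub_eq t 19436 ht0 (by linarith), log_add_eq t 19436 ht0 (by norm_num),
    log_sq_sub_eq t 1629081789 ht0 (by linarith), log_sq_sub_eq t 931217632 ht0 (by linarith),
    log_sq_sub_eq t 70202832 ht0 (by linarith)]
  ring

theorem term_bound (c l p e K : ℝ) (h : |l - p| ≤ e) (hc : |c| ≤ K) (hK : 0 ≤ K) :
    |c * l - c * p| ≤ K * e := by
  rw [← mul_sub, abs_mul]
  exact mul_le_mul hc h (abs_nonneg _) hK

theorem F_est (t : ℝ) (ht : 10^10 ≤ t) :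
    |F t - 730765762338583399157384131041175127970490246606680340787672329119152856639398215680 / t^14| ≤ 10^100 / t^16 := by
  have ht0 : 0 < t := lt_of_lt_of_le (by norm_num) ht
  have ht2 : (10:ℝ)^20 ≤ t^2 := by
    calc (10:ℝ)^20 = (10^10)^2 := by norm_num
      _ ≤ t^2 := by gcongr
  have hid := main_identity t ht0.ne'
  have e0 := term_bound ((-38238472544154446025) * t) _ _ _ (10^20 * t) (odd_bound (38872/t) (by positivity) (by rw [div_le_iff₀ ht0]; linarith)) (by rw [abs_le]; constructor <;> linarith) (by positivity)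
  have e1 := term_bound ((76476945088308892050) * t) _ _ _ (10^20 * t) (odd_bound (19436/t) (by positivity) (by rw [div_le_iff₀ ht0]; linarith)) (by rw [abs_le]; constructor <;> linarith) (by positivity)
  have e2 := term_bound (-1312452509246330543921760) _ _ _ (10^25) (even_bound (1511032384/t^2) (by positivity) (by rw [div_le_iff₀ (by positivity)]; linarith)) (by rw [abs_le]; constructor <;> norm_num) (by positivity)
  have e3 := term_bound (1566947434485413069844700) _ _ _ (10^25) (even_bound (377758096/t^2) (by positivity) (by rw [div_le_iff₀ (by positivity)]; linarith)) (by rw [abs_le]; constructor <;> norm_num) (by positivity)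
  have e4 := term_bound (-52925818274577005936640) _ _ _ (10^25) (even_bound (1629081789/t^2) (by positivity) (by rw [div_le_iff₀ (by positivity)]; linarith)) (by rw [abs_le]; constructor <;> norm_num) (by positivity)
  have e5 := term_bound (428097919465366056824672) _ _ _ (10^25) (even_bound (931217632/t^2) (by positivity) (by rw [div_le_iff₀ (by positivity)]; linarith)) (by rw [abs_le]; constructor <;> norm_num) (by positivity)
  have e6 := term_bound (-629667026429871576810972) _ _ _ (10^25) (even_bound (70202832/t^2) (by positivity) (by rw [div_le_iff₀ (by positivity)]; linarith)) (by rw [abs_le]; constructor <;> norm_num) (by positivity)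
  have f0 : 10^20 * t * (4 * (38872/t)^17) ≤ (10^99 / 2) / t^16 := by
    have : 10^20 * t * (4 * (38872/t)^17) = (4 * 10^20 * 38872^17) / t^16 := by field_simp
    rw [this]
    gcongr
    norm_num
  have f1 : 10^20 * t * (4 * (19436/t)^17) ≤ (10^99 / 2) / t^16 := by
    have : 10^20 * t * (4 * (19436/t)^17) = (4 * 10^20 * 19436^17) / t^16 := by field_simp
    rw [this]
    gcongr
    norm_num
  have f2 : 10^25 * (2 * (1511032384/t^2)^8) ≤ (10^99) / t^16 := by
    have : 10^25 * (2 * ((1511032384:ℝ)/t^2)^8) = (2 * 10^25 * 1511032384^8) / t^16 := by field_simp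
    rw [this]
    gcongr
    norm_num
  have f3 : 10^25 * (2 * (377758096/t^2)^8) ≤ (10^99) / t^16 := by
    have : 10^25 * (2 * ((377758096:ℝ)/t^2)^8) = (2 * 10^25 * 377758096^8) / t^16 := by field_simp
    rw [this]
    gcongr
    norm_num
  have f4 : 10^25 * (2 * (1629081789/t^2)^8) ≤ (10^99) / t^16 := by
    have : 10^25 * (2 * ((1629081789:ℝ)/t^2)^8) = (2 * 10^25 * 1629081789^8) / t^16 := by field_simp
    rw [this]
    gcongr
    norm_num
  have f5 : 10^25 * (2 * (931217632/t^2)^8) ≤ (10^99) / t^16 := by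
    have : 10^25 * (2 * ((931217632:ℝ)/t^2)^8) = (2 * 10^25 * 931217632^8) / t^16 := by field_simp
    rw [this]
    gcongr
    norm_num
  have f6 : 10^25 * (2 * (70202832/t^2)^8) ≤ (10^99) / t^16 := by
    have : 10^25 * (2 * ((70202832:ℝ)/t^2)^8) = (2 * 10^25 * 70202832^8) / t^16 := by field_simp
    rw [this]
    gcongr
    norm_num
  have hfin : 2 * ((10^99 / 2) / t^16) + 5 * (10^99 / t^16) ≤ 10^100 / t^16 := by
    have h8 : 2 * (((10:ℝ)^99 / 2) / t^16) + 5 * (10^99 / t^16) = (6 * 10^99) / t^16 := by ring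
    rw [h8]
    gcongr
    norm_num
  rw [F_eq t ht]
  rw [abs_le] at *
  constructor
  · linarith [e0.1, e1.1, e2.1, e3.1, e4.1, e5.1, e6.1]
  · linarith [e0.2, e1.2, e2.2, e3.2, e4.2, e5.2, e6.2]

theorem F_pos (t : ℝ) (ht : 10^10 ≤ t) : 0 < F t ∧ F t ≤ 10^85 / t^14 := by
  have ht0 : 0 < t := lt_of_lt_of_le (by norm_num) ht
  have ht2 : (10:ℝ)^20 ≤ t^2 := by
    calc (10:ℝ)^20 = (10^10)^2 := by norm_num
      _ ≤ t^2 := by gcongr
  have h := F_est t ht
  have h2 : (10:ℝ)^100 / t^16 ≤ 10^80 / t^14 := by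
    rw [div_le_div_iff₀ (by positivity) (by positivity)]
    have : (10:ℝ)^80 * t^16 = (10^80 * t^2) * t^14 := by ring
    rw [this]
    gcongr
    linarith
  rw [abs_le] at h
  constructor
  · have h3 : (10:ℝ)^80 / t^14 < 730765762338583399157384131041175127970490246606680340787672329119152856639398215680 / t^14 := by
      gcongr
      norm_num
    linarith [h.1]
  · have h3 : (730765762338583399157384131041175127970490246606680340787672329119152856639398215680:ℝ) / t^14 + 10^80 / t^14 ≤ 10^85 / t^14 := by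
      rw [← add_div]
      gcongr
      norm_num
    linarith [h.2]

end Pool.Agent.W243.LangI
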